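import Mathlib

/-! A weight on the circle that detects carries. -/

namespace Pool.Agent.Lib.MP_a8c702_nt.RG

open Finset Real

/-- the weight -/
noncomputable def wt (z : ℂ) : ℝ := ‖(1 + z) / 2‖ ^ 24

theorem wt_nonneg (z : ℂ) : 0 ≤ wt z := by unfold wt; positivity

theorem wt_le {z : ℂ} {M : ℕ} (hz : z ^ (M + 1) = 1) : wt z ≤ 1 := by
  refine pow_le_one₀ (norm_nonneg _) ?_
  have := norm_add_le 1 z
  rw [Complex.norm_eq_one_of_pow_eq_one hz (by omega), norm_one] at this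
  rw [norm_div, Complex.norm_ofNat]
  linarith

theorem wt_exp (s : ℝ) : wt (Complex.exp (2 * π * Complex.I * s)) = |cos (π * s)| ^ 24 := by
  have : (1 + Complex.exp (2 * π * Complex.I * s)) / 2 =
      Complex.exp ((π * s : ℝ) * Complex.I) * (cos (π * s) : ℝ) := by
    rw [Complex.ofReal_cos, Complex.cos, mul_div_assoc', mul_add, ← Complex.exp_add,
      ← Complex.exp_add, neg_mul, add_neg_cancel, Complex.exp_zero, add_comm]
    push_cast
    ring_nf
  rw [wt, this, norm_mul, Complex.norm_exp_ofReal_mul_I, one_mul, Complex.norm_real,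
    Real.norm_eq_abs]

theorem wt_expand {z : ℂ} {M : ℕ} (hz : z ^ (M + 1) = 1) : (wt z : ℂ) =
    ∑ j ∈ range 25, ((Nat.choose 24 j : ℝ) / 2 ^ 24 : ℝ) * z ^ (j + 12 * M) := by
  have h1 : ‖z‖ = 1 := Complex.norm_eq_one_of_pow_eq_one hz (by omega)
  have h2 : z * (starRingEnd ℂ) z = 1 := by
    rw [Complex.mul_conj, Complex.normSq_eq_norm_sq, h1]
    simp
  have h3 : (starRingEnd ℂ) z = z ^ M := by linear_combination z ^ M * h2 - (starRingEnd ℂ) z * hz
  have h4 : ((‖(1 + z) / 2‖ ^ 2 : ℝ) : ℂ) = (z + 1) ^ 2 * z ^ M / 4 := by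
    rw [← Complex.normSq_eq_norm_sq, ← Complex.mul_conj, map_div₀, map_add, map_one, h3,
      map_ofNat]
    linear_combination (-(1 + z) / 4) * hz
  rw [wt, show 24 = 2 * 12 from rfl, pow_mul, Complex.ofReal_pow, h4, div_pow, mul_pow, ← pow_mul,
    add_pow, sum_mul, sum_div]
  refine sum_congr rfl fun j _ => ?_
  push_cast
  ring

theorem cos_add_le {u v : ℝ} (u0 : 0 ≤ u) (u1 : u ≤ 1) (v0 : 0 ≤ v) (v1 : v ≤ 1) :
    cos (π * (u + v)) ≤ |cos (π * u)| * |cos (π * v)| := by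
  have h1 := sin_nonneg_of_nonneg_of_le_pi (mul_nonneg pi_pos.le u0)
    (mul_le_of_le_one_right pi_pos.le u1)
  have h2 := sin_nonneg_of_nonneg_of_le_pi (mul_nonneg pi_pos.le v0)
    (mul_le_of_le_one_right pi_pos.le v1)
  rw [mul_add, cos_add, ← abs_mul]
  linarith [mul_nonneg h1 h2, le_abs_self (cos (π * u) * cos (π * v))]

theorem carry {u1 u2 u3 u4 δ : ℝ} {n : ℤ} (a1 : 0 ≤ u1) (b1 : u1 ≤ 1) (a2 : 0 ≤ u2) (b2 : u2 ≤ 1)
    (a3 : 0 ≤ u3) (b3 : u3 ≤ 1) (a4 : 0 ≤ u4) (b4 : u4 ≤ 1) (hδ : |δ| ≤ 1 / 40000) (hn : n ≠ 0)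
    (e : u1 + u2 + δ = u3 + u4 + n) : |cos (π * (u1 + u2))| ^ 24 ≤
      |cos (π * u1)| ^ 24 * |cos (π * u2)| ^ 24 + |cos (π * u3)| ^ 24 * |cos (π * u4)| ^ 24 +
        1 / 500 := by
  rw [← mul_pow, ← mul_pow]
  have p1 : 0 ≤ (|cos (π * u1)| * |cos (π * u2)|) ^ 24 := by positivity
  have p2 : 0 ≤ (|cos (π * u3)| * |cos (π * u4)|) ^ 24 := by positivity
  obtain ⟨d1, d2⟩ := abs_le.1 hδ
  rcases le_or_gt 0 (cos (π * (u1 + u2))) with h | h
  · have := pow_le_pow_left₀ h (cos_add_le a1 b1 a2 b2) 24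
    rw [abs_of_nonneg h]
    linarith
  have s1 : 1 / 2 < u1 + u2 := by
    by_contra! k
    exact absurd (cos_nonneg_of_mem_Icc ⟨by nlinarith [pi_pos], by nlinarith [pi_pos]⟩) h.not_ge
  have s2 : u1 + u2 < 3 / 2 := by
    by_contra! k
    rw [← cos_sub_two_pi] at h
    exact absurd (cos_nonneg_of_mem_Icc ⟨by nlinarith [pi_pos], by nlinarith [pi_pos]⟩) h.not_ge
  have n1 : n < 2 := by exact_mod_cast (by linarith : (n : ℝ) < 2)
  have n2 : -2 < n := by exact_mod_cast (by linarith : (-2 : ℝ) < n)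
  have h1 : cos (π * (u1 + u2 + δ)) = -cos (π * (u3 + u4)) := by
    rw [e, mul_add]
    obtain rfl | rfl : n = 1 ∨ n = -1 := by omega
    · simp [cos_add_pi]
    · simp [← sub_eq_add_neg, cos_sub_pi]
  have h2 := abs_le.1 (abs_cos_sub_cos_le (π * (u1 + u2 + δ)) (π * (u1 + u2)))
  have h3 : |π * (u1 + u2 + δ) - π * (u1 + u2)| ≤ 1 / 12000 := by
    rw [← mul_sub, add_sub_cancel_left, abs_mul, abs_of_pos pi_pos]
    nlinarith [pi_lt_d2, abs_nonneg δ, pi_pos]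
  have h4 := cos_add_le a3 b3 a4 b4
  set y := |cos (π * u3)| * |cos (π * u4)|
  set c := |cos (π * (u1 + u2))| with hc
  have y0 : 0 ≤ y := by positivity
  have c1 : c ≤ 1 := abs_cos_le_one _
  have h5 : c ≤ y + 1 / 12000 := by
    rw [hc, abs_of_neg h]
    linarith [h2.2]
  rcases le_or_gt c y with k | k
  · linarith [pow_le_pow_left₀ (abs_nonneg _) k 24]
  have h6 := (le_abs_self _).trans (abs_pow_sub_pow_le c y 24)
  rw [abs_of_pos (sub_pos.2 k), abs_of_nonneg y0, abs_of_nonneg (y0.trans k.le),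
    max_eq_left k.le] at h6
  have h7 : c ^ 23 ≤ 1 := pow_le_one₀ (y0.trans k.le) c1
  have h8 := mul_le_of_le_one_right (show 0 ≤ (c - y) * 24 by linarith) h7
  push_cast at h6
  linarith

/-- the mean of the weight -/
noncomputable def mu : ℝ := (Nat.choose 24 12 : ℝ) / 2 ^ 24

theorem mu_eq : mu = 2704156 / 16777216 := by
  rw [mu, show Nat.choose 24 12 = 2704156 by decide +kernel]
  norm_num

theorem comb_le {f : ℕ → ℂ} {E : ℝ} (h : ∀ j ∈ range 25, ‖f j‖ ≤ E) :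
    ‖∑ j ∈ range 25, ((Nat.choose 24 j : ℝ) / 2 ^ 24 : ℝ) * f j‖ ≤ E := by
  refine (norm_sum_le_of_le _ (n := fun j => (Nat.choose 24 j : ℝ) / 2 ^ 24 * E)
    fun j hj => ?_).trans (le_of_eq ?_)
  · rw [norm_mul, Complex.norm_real, Real.norm_of_nonneg (by positivity)]
    exact mul_le_mul_of_nonneg_left (h j hj) (by positivity)
  · rw [← sum_mul, ← sum_div, ← Nat.cast_sum, Nat.sum_range_choose]
    norm_num

variable {K : Type} [Fintype K] {M : ℕ} {z ρ : K → ℂ} {E : ℝ}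

theorem sum_wt (hz : ∀ t, z t ^ (M + 1) = 1) : ∑ t, wt (z t) * ρ t = ∑ j ∈ range 25,
    ((Nat.choose 24 j : ℝ) / 2 ^ 24 : ℝ) * ∑ t, z t ^ (j + 12 * M) * ρ t := by
  simp only [wt_expand (hz _), sum_mul, mul_sum, mul_assoc]
  exact sum_comm

theorem mean0 (hz : ∀ t, z t ^ (M + 1) = 1)
    (h : ∀ j, ‖∑ t, z t ^ j * ρ t‖ ≤ E) : ‖∑ t, wt (z t) * ρ t‖ ≤ E := by
  rw [sum_wt hz]
  exact comb_le fun j _ => h _

theorem mean1 (hM : 12 ≤ M) (hz : ∀ t, z t ^ (M + 1) = 1)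
    (h : ∀ j, ¬M + 1 ∣ j → ‖∑ t, z t ^ j * ρ t‖ ≤ E) :
    ‖∑ t, wt (z t) * ρ t - mu * ∑ t, ρ t‖ ≤ E := by
  have h1 : ∑ t, wt (z t) * ρ t - mu * ∑ t, ρ t = ∑ j ∈ range 25,
      ((Nat.choose 24 j : ℝ) / 2 ^ 24 : ℝ) *
        if j = 12 then 0 else ∑ t, z t ^ (j + 12 * M) * ρ t := by
    rw [sum_wt hz, ← add_sum_erase _ _ (show 12 ∈ range 25 by simp),
      ← add_sum_erase _ _ (show 12 ∈ range 25 by simp), if_pos rfl, mul_zero, zero_add,
      show 12 + 12 * M = (M + 1) * 12 by ring]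
    simp only [pow_mul, hz, one_pow, one_mul, mu, add_sub_cancel_left]
    exact sum_congr rfl fun j hj => by rw [if_neg (ne_of_mem_erase hj)]
  rw [h1]
  refine comb_le fun j hj => ?_
  have := mem_range.1 hj
  split_ifs with e
  · simpa using (norm_nonneg _).trans (h 1 fun d => by have := Nat.le_of_dvd one_pos d; omega)
  refine h _ fun d => ?_
  rcases lt_or_gt_of_ne e with k | k
  · have h2 : M + 1 ∣ 12 - j := (Nat.dvd_add_right d).1
      (by rw [show j + 12 * M + (12 - j) = (M + 1) * 12 by omega]; exact dvd_mul_right _ _)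
    have := Nat.le_of_dvd (by omega) h2
    omega
  · rw [show j + 12 * M = (M + 1) * 12 + (j - 12) by omega,
      Nat.dvd_add_right (dvd_mul_right _ _)] at d
    have := Nat.le_of_dvd (by omega) d
    omega

end Pool.Agent.Lib.MP_a8c702_nt.RG
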