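import Pool.Agent.Lib.MP_a8c702_nt.RI.Match

/-! Points of a line in a short interval of exponents. -/

namespace Pool.Agent.Lib.MP_a8c702_nt.RG

open Finset Real Filter

/-- the weight of order `k` -/
noncomputable def wk (k : ℕ) (z : ℂ) : ℝ := ‖(1 + z) / 2‖ ^ (2 * k)

/-- its mean -/
noncomputable def mn (k : ℕ) : ℝ := (Nat.choose (2 * k) k : ℝ) / 4 ^ k

theorem wk_exp (k : ℕ) (s : ℝ) :
    wk k (Complex.exp (2 * π * Complex.I * s)) = |cos (π * s)| ^ (2 * k) := by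
  have := wt_exp s
  rw [wt, pow_left_inj₀ (norm_nonneg _) (abs_nonneg _) (by norm_num)] at this
  rw [wk, this]

theorem wk_expand (k : ℕ) {z : ℂ} {M : ℕ} (hz : z ^ (M + 1) = 1) : (wk k z : ℂ) =
    ∑ j ∈ range (2 * k + 1), ((Nat.choose (2 * k) j : ℝ) / 4 ^ k : ℝ) * z ^ (j + k * M) := by
  have h1 : ‖z‖ = 1 := Complex.norm_eq_one_of_pow_eq_one hz (by omega)
  have h2 : z * (starRingEnd ℂ) z = 1 := by
    rw [Complex.mul_conj, Complex.normSq_eq_norm_sq, h1]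
    simp
  have h3 : (starRingEnd ℂ) z = z ^ M := by linear_combination z ^ M * h2 - (starRingEnd ℂ) z * hz
  have h4 : ((‖(1 + z) / 2‖ ^ 2 : ℝ) : ℂ) = (z + 1) ^ 2 * z ^ M / 4 := by
    rw [← Complex.normSq_eq_norm_sq, ← Complex.mul_conj, map_div₀, map_add, map_one, h3,
      map_ofNat]
    linear_combination (-(1 + z) / 4) * hz
  rw [wk, pow_mul, Complex.ofReal_pow, h4, div_pow, mul_pow, ← pow_mul, add_pow, sum_mul, sum_div]
  refine sum_congr rfl fun j _ => ?_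
  push_cast
  ring

theorem meank (k : ℕ) {K : Type} [Fintype K] {M : ℕ} {z : K → ℂ} {E : ℝ} (hM : k < M)
    (hz : ∀ t, z t ^ (M + 1) = 1) (h : ∀ j, ¬M + 1 ∣ j → ‖∑ t, z t ^ j‖ ≤ E) :
    |∑ t, wk k (z t) - mn k * Fintype.card K| ≤ E := by
  have hk : k ∈ range (2 * k + 1) := mem_range.2 (by omega)
  have h1 : ((∑ t, wk k (z t) - mn k * Fintype.card K : ℝ) : ℂ) = ∑ j ∈ range (2 * k + 1),
      ((Nat.choose (2 * k) j : ℝ) / 4 ^ k : ℝ) *
        if j = k then 0 else ∑ t, z t ^ (j + k * M) := by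
    rw [Complex.ofReal_sub, Complex.ofReal_sum, sum_congr rfl fun t _ => wk_expand k (hz t),
      sum_comm, ← add_sum_erase _ _ hk, ← add_sum_erase _ _ hk, if_pos rfl, mul_zero, zero_add,
      show k + k * M = (M + 1) * k by ring]
    simp only [pow_mul _ (M + 1), hz, one_pow, mul_one, sum_const, card_univ, nsmul_eq_mul, mn,
      Complex.ofReal_mul, Complex.ofReal_natCast, mul_comm (Fintype.card K : ℂ),
      add_sub_cancel_left]
    exact sum_congr rfl fun j hj => by rw [if_neg (ne_of_mem_erase hj), mul_sum]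
  rw [← Real.norm_eq_abs, ← Complex.norm_real, h1]
  refine (norm_sum_le_of_le _ (n := fun j => (Nat.choose (2 * k) j : ℝ) / 4 ^ k * E)
    fun j hj => ?_).trans (le_of_eq ?_)
  · rw [norm_mul, Complex.norm_real, Real.norm_of_nonneg (by positivity)]
    refine mul_le_mul_of_nonneg_left ?_ (by positivity)
    have := mem_range.1 hj
    split_ifs with e
    · simpa using (norm_nonneg _).trans (h 1 fun d => by have := Nat.le_of_dvd one_pos d; omega)
    refine h _ fun d => ?_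
    rcases lt_or_gt_of_ne e with c | c
    · have h2 : M + 1 ∣ k - j := (Nat.dvd_add_right d).1 (by
        rw [show j + k * M + (k - j) = (M + 1) * k by rw [add_mul, mul_comm M]; omega]
        exact dvd_mul_right _ _)
      have := Nat.le_of_dvd (by omega) h2
      omega
    · rw [show j + k * M = (M + 1) * k + (j - k) by rw [add_mul, mul_comm M]; omega,
        Nat.dvd_add_right (dvd_mul_right _ _)] at d
      have := Nat.le_of_dvd (by omega) d
      omega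
  · rw [← sum_mul, ← sum_div, ← Nat.cast_sum, Nat.sum_range_choose, pow_mul]
    norm_num

theorem mn_ge (k : ℕ) : 1 ≤ (2 * k + 1) * mn k := by
  rw [mn, ← mul_div_assoc, one_le_div (by positivity)]
  exact_mod_cast Nat.four_pow_le_two_mul_add_one_mul_central_binom k

/-- the mass of the weight near the origin -/
theorem mass (k : ℕ) {M r : ℕ} (hM : k < M) (hr : 2 * r ≤ M) {ρ : ℝ} (h0 : 0 ≤ ρ)
    (h1 : ρ * (M + 1 : ℕ) ≤ r) : (mn k - cos (π * ρ) ^ (2 * k)) * (M + 1 : ℕ) ≤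
      ∑ t ∈ range (2 * r + 1), |cos (π * ((t - r) / (M + 1 : ℕ)))| ^ (2 * k) := by
  have hζ := Complex.isPrimitiveRoot_exp (M + 1) (by omega)
  set ζ := Complex.exp (2 * π * Complex.I / (M + 1 : ℕ)) with hz
  have M0 : (0 : ℝ) < (M + 1 : ℕ) := by positivity
  have e : ∀ t : ℕ, Complex.exp (2 * π * Complex.I * ((t - r : ℝ) / (M + 1 : ℕ) : ℝ)) =
      ζ⁻¹ ^ r * ζ ^ t := fun t => by
    rw [hz, ← Complex.exp_neg, ← Complex.exp_nat_mul, ← Complex.exp_nat_mul, ← Complex.exp_add]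
    congr 1
    push_cast
    ring
  have h2 := meank k (K := Fin (M + 1)) (z := fun t => ζ⁻¹ ^ r * ζ ^ (t : ℕ)) (E := 0) hM
    (fun t => by
      rw [mul_pow, pow_right_comm, pow_right_comm ζ, inv_pow, hζ.pow_eq_one]
      simp) fun j hj => by
      simp only [mul_pow, pow_right_comm ζ _ j]
      rw [← mul_sum, Fin.sum_univ_eq_sum_range fun t => (ζ ^ j) ^ t, geom_sum_eq
        fun c => hj ((hζ.pow_eq_one_iff_dvd j).1 c), pow_right_comm ζ, hζ.pow_eq_one]
      simp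
  simp only [← e, wk_exp] at h2
  rw [abs_nonpos_iff, sub_eq_zero, Fintype.card_fin,
    Fin.sum_univ_eq_sum_range fun t => |cos (π * ((t - r : ℝ) / (M + 1 : ℕ)))| ^ (2 * k),
    ← sum_range_add_sum_Ico _ (show 2 * r + 1 ≤ M + 1 by omega)] at h2
  have h3 := sum_le_card_nsmul (Ico (2 * r + 1) (M + 1))
    (fun t : ℕ => |cos (π * ((t - r : ℝ) / (M + 1 : ℕ)))| ^ (2 * k)) (cos (π * ρ) ^ (2 * k))
    fun t ht => by
      obtain ⟨a, b⟩ := mem_Ico.1 ht
      have a' : (2 * r + 1 : ℝ) ≤ t := by exact_mod_cast a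
      have b' : (t : ℝ) ≤ (M + 1 : ℕ) := by exact_mod_cast b.le
      have c1 : ρ ≤ (t - r : ℝ) / (M + 1 : ℕ) := by rw [le_div_iff₀ M0]; linarith
      have c2 : (t - r : ℝ) / (M + 1 : ℕ) ≤ 1 - ρ := by rw [div_le_iff₀ M0]; linarith
      refine pow_le_pow_left₀ (abs_nonneg _) (abs_le.2 ⟨?_, ?_⟩) _
      · rw [← cos_pi_sub]
        exact cos_le_cos_of_nonneg_of_le_pi (by nlinarith [pi_pos]) (by nlinarith [pi_pos])
          (by nlinarith [pi_pos])
      · exact cos_le_cos_of_nonneg_of_le_pi (by nlinarith [pi_pos]) (by nlinarith [pi_pos])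
          (by nlinarith [pi_pos])
  have h4 : (#(Ico (2 * r + 1) (M + 1)) : ℝ) ≤ (M + 1 : ℕ) := by
    rw [Nat.card_Ico]
    exact Nat.cast_le.2 (Nat.sub_le _ _)
  have h5 : 0 ≤ cos (π * ρ) ^ (2 * k) := by rw [pow_mul]; positivity
  rw [nsmul_eq_mul] at h3
  nlinarith

variable {K L : Type} [Field K] [Fintype K] [DecidableEq K] [Field L] [Algebra K L] {g : L} {M : ℕ}
  {Ψ : L → ℂ}

theorem Pk.zpow (h : Pk (K := K) g M Ψ) (g0 : g ≠ 0) (n : ℤ) :
    Ψ (g ^ n) = Complex.exp (2 * π * Complex.I * ((n : ℝ) / M : ℝ)) := by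
  have h1 : ∀ m : ℕ, Ψ (g ^ m) = Complex.exp (m * (2 * π * Complex.I / M)) := fun m => by
    rw [h.pow, h.gen, Complex.exp_nat_mul]
  obtain ⟨m, rfl | rfl⟩ := n.eq_nat_or_neg
  · rw [zpow_natCast, h1]
    congr 1
    push_cast
    ring
  · have := h.mul (g ^ (-(m : ℤ))) (g ^ m)
    rw [zpow_neg, zpow_natCast, inv_mul_cancel₀ (pow_ne_zero m g0), h.one, h1] at this
    rw [zpow_neg, zpow_natCast, eq_inv_of_mul_eq_one_left this.symm, ← Complex.exp_neg]
    congr 1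
    push_cast
    ring

theorem Pk.short (h : Pk (K := K) g (M + 1) Ψ) (hL : ∀ y : L, y ≠ 0 → y ^ (M + 1) = 1) (g0 : g ≠ 0)
    {θ v : L} (hθ : θ ∉ Set.range (algebraMap K L)) (v0 : v ≠ 0) (k : ℕ) {r Δ : ℕ} (hM : k < M)
    (hr : 2 * r ≤ M) {ρ : ℝ} (h0 : 0 ≤ ρ) (h1 : ρ * (M + 1 : ℕ) ≤ r) {s : ℤ} {Y : Finset ℤ}
    (hY : ∀ y ∈ Y, s ≤ y ∧ y ≤ s + Δ) {f : ℤ → K} (hf : Set.InjOn f Y)
    (hf' : ∀ y ∈ Y, g ^ y = v * (θ - algebraMap K L (f y))) :
    #Y * ((mn k - cos (π * ρ) ^ (2 * k)) * (M + 1 : ℕ)) ≤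
      (Δ + 2 * r + 1) * (mn k * Fintype.card K + 10 * √(Fintype.card K)) := by
  have ne : ∀ t, θ - algebraMap K L t ≠ 0 := fun t k => hθ ⟨t, (sub_eq_zero.1 k).symm⟩
  let F : ℤ → K → ℝ := fun t x => wk k (Ψ (g ^ (-t) * v * (θ - algebraMap K L x)))
  have F0 : ∀ t x, 0 ≤ F t x := fun t x => by simp only [F, wk]; positivity
  have h2 : ∀ t, ∑ x, F t x ≤ mn k * Fintype.card K + 10 * √(Fintype.card K) := fun t => by
    have c0 := mul_ne_zero (zpow_ne_zero (-t) g0) v0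
    have := meank k (z := fun x => Ψ (g ^ (-t) * v * (θ - algebraMap K L x)))
      (E := 10 * √(Fintype.card K)) hM (fun x => h.unit hL (mul_ne_zero c0 (ne x))) fun j hj => by
        simp only [h.mul _ (θ - _), mul_pow]
        rw [← mul_sum, h.norm_mul_le hL c0]
        simpa using h.sumA θ hθ j hj 1 1 one_ne_zero one_ne_zero (by simp) (by simp)
    linarith [(abs_le.1 this).2]
  have h3 : ∀ y ∈ Y, (mn k - cos (π * ρ) ^ (2 * k)) * (M + 1 : ℕ) ≤
      ∑ t ∈ Icc (s - r) (s + Δ + r), F t (f y) := fun y hy => by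
    refine (mass k hM hr h0 h1).trans (le_trans (le_of_eq ?_) (sum_le_sum_of_subset_of_nonneg
      (s := (range (2 * r + 1)).image fun t : ℕ => y + r - t) (fun t ht => ?_) fun t _ _ => F0 _ _))
    · rw [sum_image fun a _ b _ e => by simpa using e]
      refine sum_congr rfl fun t _ => ?_
      simp only [F]
      rw [mul_assoc (g ^ _), ← hf' y hy, ← zpow_add₀ g0, h.zpow g0, wk_exp]
      push_cast
      ring_nf
    · obtain ⟨a, ha, rfl⟩ := mem_image.1 ht
      have := mem_range.1 ha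
      have := hY y hy
      rw [mem_Icc]
      omega
  have h4 := card_nsmul_le_sum _ _ _ h3
  rw [nsmul_eq_mul, sum_comm] at h4
  refine h4.trans ((sum_le_card_nsmul _ _ _ fun t _ => le_trans ?_ (h2 t)).trans (le_of_eq ?_))
  · rw [← sum_image (f := F t) hf]
    exact sum_le_sum_of_subset_of_nonneg (subset_univ _) fun x _ _ => F0 _ _
  · rw [nsmul_eq_mul, Int.card_Icc, show s + Δ + r + 1 - (s - r) = (Δ + 2 * r + 1 : ℕ) by omega,
      Int.toNat_natCast]
    push_cast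
    ring

theorem exists_k {η : ℝ} (h0 : 0 < η) (h1 : η ≤ 1) :
    ∃ k : ℕ, cos (π * (η / 8)) ^ (2 * k) ≤ η / 8 * mn k := by
  have c1 : cos (π * (η / 8)) ^ 2 < 1 := by
    have := sin_pos_of_pos_of_lt_pi (x := π * (η / 8)) (by positivity) (by nlinarith [pi_pos])
    nlinarith [sin_sq_add_cos_sq (π * (η / 8))]
  have t := ((tendsto_self_mul_const_pow_of_lt_one (sq_nonneg _) c1).const_mul 2).add
    (tendsto_pow_atTop_nhds_zero_of_lt_one (sq_nonneg _) c1)
  obtain ⟨k, hk⟩ := (t.eventually_lt_const (show _ < η / 8 by simpa using h0)).exists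
  refine ⟨k, ?_⟩
  rw [pow_mul]
  have a := mn_ge k
  have b : 0 ≤ (cos (π * (η / 8)) ^ 2) ^ k := by positivity
  have c : 0 ≤ mn k := by unfold mn; positivity
  nlinarith [mul_le_mul_of_nonneg_right a b, mul_le_mul_of_nonneg_right hk.le c]

theorem Pk.short2 (h : Pk (K := K) g (M + 1) Ψ) (hL : ∀ y : L, y ≠ 0 → y ^ (M + 1) = 1)
    (g0 : g ≠ 0) {θ v : L} (hθ : θ ∉ Set.range (algebraMap K L)) (v0 : v ≠ 0) {η : ℝ} (h0 : 0 < η)
    (h1 : η ≤ 1) {k : ℕ} (hk : cos (π * (η / 8)) ^ (2 * k) ≤ η / 8 * mn k)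
    (hq : 80 * (2 * k + 1) ≤ η * √(Fintype.card K)) (hM : Fintype.card K ≤ M) {R : ℕ} (hR : 0 < R)
    {Y : Finset ℤ} (hY : ∀ y ∈ Y, ∀ y' ∈ Y, R * |y - y'| ≤ M + 1)
    (hi : ∀ y ∈ Y, ∀ y' ∈ Y, g ^ y = g ^ y' → y = y')
    (hf : ∀ y ∈ Y, ∃ x, g ^ y = v * (θ - algebraMap K L x)) :
    (#Y : ℝ) ≤ (1 / R + η) * Fintype.card K := by
  rcases Y.eq_empty_or_nonempty with rfl | hne
  · simp only [card_empty, Nat.cast_zero]
    positivity
  choose! f hf using hf
  set q : ℝ := (Fintype.card K : ℝ) with hq'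
  have q0 : 0 ≤ √q := sqrt_nonneg _
  have q1 : √q * √q = q := mul_self_sqrt (Nat.cast_nonneg _)
  have k0 : (0 : ℝ) ≤ k := Nat.cast_nonneg _
  have q2 : 80 * (2 * k + 1) ≤ √q := by nlinarith
  have q3 : √q ≤ q := by nlinarith
  have M1 : q ≤ M := Nat.cast_le.2 hM
  have M0 : (0 : ℝ) < (M + 1 : ℕ) := by positivity
  have r1 := Nat.ceil_lt_add_one (show 0 ≤ η / 8 * (M + 1 : ℕ) by positivity)
  have r2 : η / 8 * (M + 1 : ℕ) ≤ 1 / 8 * (M + 1 : ℕ) := by gcongr
  have := h.short hL g0 hθ v0 k (r := ⌈η / 8 * (M + 1 : ℕ)⌉₊) (Δ := (M + 1) / R)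
    (by exact_mod_cast (by linarith : (k : ℝ) < M)) (by
      have : (2 * ⌈η / 8 * (M + 1 : ℕ)⌉₊ : ℝ) ≤ M := by push_cast at r1 r2 ⊢; linarith
      exact_mod_cast this) (ρ := η / 8) (by positivity) (Nat.le_ceil _) (s := Y.min' hne)
    (fun y hy => ⟨min'_le _ _ hy, by
      have a := hY y hy _ (min'_mem Y hne)
      rw [abs_of_nonneg (sub_nonneg.2 (min'_le _ _ hy)), mul_comm] at a
      have b := Int.le_ediv_of_mul_le (by exact_mod_cast hR) a
      push_cast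
      omega⟩) (fun y hy y' hy' e => hi y hy y' hy' (by rw [hf y hy, hf y' hy', e])) hf
  have a := mn_ge k
  have m0 : 0 < mn k := (pos_iff_pos_of_mul_pos (one_pos.trans_le a)).1 (by positivity)
  have d1 : (((M + 1) / R : ℕ) : ℝ) ≤ 1 / R * (M + 1 : ℕ) := by
    rw [one_div_mul_eq_div]
    exact Nat.cast_div_le
  have R1 : 1 / (R : ℝ) ≤ 1 := (div_le_one (by positivity)).2 (Nat.one_le_cast.2 hR)
  have R0 : 0 ≤ 1 / (R : ℝ) := by positivity
  generalize 1 / (R : ℝ) = c at *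
  have e1 : 10 * √q ≤ η / 8 * (mn k * q) := by
    have := mul_le_mul_of_nonneg_right hq (mul_nonneg m0.le q0)
    nlinarith [mul_le_mul_of_nonneg_right a q0]
  have e2 : 3 ≤ η / 8 * (M + 1 : ℕ) := by
    push_cast
    nlinarith [mul_le_mul_of_nonneg_left (q3.trans M1) h0.le]
  have e3 : (#Y : ℝ) * ((1 - η / 8) * (mn k * (M + 1 : ℕ))) ≤
      ((c + 3 * η / 8) * (M + 1 : ℕ)) * ((1 + η / 8) * (mn k * q)) := by
    refine le_trans (mul_le_mul_of_nonneg_left (by nlinarith) (Nat.cast_nonneg _)) (this.trans ?_)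
    exact mul_le_mul (by linarith) (by linarith) (by positivity) (by positivity)
  have e4 : (#Y : ℝ) * (1 - η / 8) ≤ (c + 3 * η / 8) * (1 + η / 8) * q :=
    le_of_mul_le_mul_right (by linarith) (mul_pos m0 M0)
  refine le_of_mul_le_mul_right (e4.trans ?_) (show 0 < 1 - η / 8 by linarith)
  rw [mul_right_comm (c + η)]
  exact mul_le_mul_of_nonneg_right (by nlinarith) (Nat.cast_nonneg _)

end Pool.Agent.Lib.MP_a8c702_nt.RG
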