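import Pool.Agent.Lib.MP_a8c702_nt.RG.Step

/-! Independence of the powers of `f ^ ((q - 1) / N)` modulo `X ^ q`. -/

namespace Pool.Agent.Lib.MP_a8c702_nt.RG

open Polynomial Finset

variable {F : Type} [Field F]

/-- no small power of `f` is an `N`-th power up to a constant -/
def Kum (N : ℕ) (f : F[X]) : Prop :=
  ∀ d, 0 < d → d < N → ∀ (c : F) (H : F[X]), c ≠ 0 → C c * f ^ d ≠ H ^ N

theorem Kum.prime {N : ℕ} {f : F[X]} (h : Kum N f) (hN : 0 < N) {c : F} (hc : c ≠ 0) :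
    Prime (X ^ N - C (C c * f) : F[X][X]) := by
  have hm : (X ^ N - C (C c * f) : F[X][X]).Monic := monic_X_pow_sub_C _ hN.ne'
  have hd : (X ^ N - C (C c * f) : F[X][X]).natDegree = N := natDegree_X_pow_sub_C
  refine Irreducible.prime (hm.irreducible_iff_natDegree.2 ⟨fun e => ?_, fun A B hA hB e => ?_⟩)
  · rw [e, natDegree_one] at hd
    omega
  by_contra! hn
  rw [← e, hA.natDegree_mul hB] at hd
  have h1 : AdjoinRoot.root A ^ N = algebraMap F[X] (AdjoinRoot A) (C c * f) := by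
    have := congrArg (AdjoinRoot.mk A) e
    rw [map_mul, AdjoinRoot.mk_self, zero_mul, map_sub, map_pow, AdjoinRoot.mk_X,
      AdjoinRoot.mk_C] at this
    exact (sub_eq_zero.1 this.symm)
  have h2 := congrArg (Algebra.norm F[X]) h1
  rw [map_pow, Algebra.norm_algebraMap_of_basis (AdjoinRoot.powerBasis' hA).basis, Fintype.card_fin,
    AdjoinRoot.powerBasis'_dim, mul_pow, ← C_pow] at h2
  exact h A.natDegree (by omega) (by omega) _ _ (pow_ne_zero _ hc) h2.symm

theorem low_zero {R : Type} [CommRing R] [IsDomain R] {N : ℕ} {p : R[X]} (hp : p.degree = N)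
    {s : Fin N → R} (h : p ∣ ∑ i, C (s i) * X ^ (i : ℕ)) (j : Fin N) : s j = 0 := by
  have h1 := eq_zero_of_dvd_of_degree_lt h (hp ▸ degree_sum_fin_lt s)
  have h2 := congrArg (coeff · j) h1
  simpa [finsetSum_coeff, coeff_C_mul, coeff_X_pow, Fin.val_inj] using h2

/-- the matrix of multiplication by `∑ s i * Y ^ i` modulo `Y ^ N - f` -/
noncomputable def mat {N : ℕ} [NeZero N] (f : F[X]) (s : Fin N → F[X]) :
    Matrix (Fin N) (Fin N) F[X] :=
  fun j k => s (k - j) * f ^ ((((k - j : Fin N) : ℕ) + j) / N)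

theorem mat_row {N : ℕ} [NeZero N] (f : F[X]) (s : Fin N → F[X]) {R : Type} [CommRing R]
    (φ : F[X] →+* R) {y : R} (hy : y ^ N = φ f) (j : Fin N) :
    ∑ k, φ (mat f s j k) * y ^ (k : ℕ) = y ^ (j : ℕ) * ∑ i, φ (s i) * y ^ (i : ℕ) := by
  rw [mul_sum, ← Equiv.sum_comp (Equiv.addRight j)]
  refine sum_congr rfl fun i _ => ?_
  simp only [mat, Equiv.coe_addRight, add_sub_cancel_right, map_mul, map_pow, ← hy, Fin.val_add]
  rw [mul_assoc, ← pow_mul, ← pow_add, Nat.div_add_mod, pow_add]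
  ring

theorem mat_deg {N : ℕ} [NeZero N] (f : F[X]) {s : Fin N → F[X]} {d : ℕ}
    (hs : ∀ i, (s i).natDegree ≤ d) : (mat f s).det.natDegree ≤ N * (d + f.natDegree) := by
  rw [Matrix.det_apply']
  refine natDegree_sum_le_of_forall_le _ _ fun σ _ => natDegree_mul_le.trans ?_
  rw [natDegree_intCast, zero_add]
  refine (natDegree_prod_le _ _).trans ((sum_le_card_nsmul _ _ (d + f.natDegree) fun i _ =>
    natDegree_mul_le.trans (add_le_add (hs _) (natDegree_pow_le.trans ?_))).trans (by simp))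
  have h1 := (i - σ i).2
  have h2 := (σ i).2
  have : (((i - σ i : Fin N) : ℕ) + σ i) / N ≤ 1 :=
    Nat.le_of_lt_succ (Nat.div_lt_of_lt_mul (by omega))
  nlinarith

theorem Kum.indep {N h d p k : ℕ} [Fact p.Prime] [CharP F p] {f : F[X]} (hf : Kum (N + 1) f)
    (hq : p ^ k = (N + 1) * h + 1) (h0 : f.coeff 0 ≠ 0) (hd : d + f.natDegree ≤ h)
    {r : Fin (N + 1) → F[X]} (hr : ∀ i, (r i).natDegree ≤ d)
    (hX : X ^ p ^ k ∣ ∑ i, r i * f ^ (h * i)) (j : Fin (N + 1)) : r j = 0 := by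
  set c := f.coeff 0 ^ p ^ k with hc
  have hc0 : c ≠ 0 := pow_ne_zero _ h0
  let φ := AdjoinRoot.mk (X ^ p ^ k : F[X])
  have h1 : φ f ^ ((N + 1) * h + 1) = φ (C c) := by
    rw [← hq, ← map_pow, AdjoinRoot.mk_eq_mk]
    conv_rhs => rw [← X_mul_divX_add f]
    rw [add_pow_char_pow, mul_pow, ← C_pow, ← hc, add_sub_cancel_right]
    exact dvd_mul_right _ _
  have h2 : φ (C c⁻¹) * φ (C c) = 1 := by rw [← map_mul, ← C_mul, inv_mul_cancel₀ hc0, C_1, map_one]
  set y := φ (C c⁻¹) * φ f ^ (h * N + 1) with hy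
  have h3 : y * φ f ^ h = 1 := by
    rw [← h2, ← h1, hy]
    ring
  have h4 : y ^ (N + 1) = φ (C c⁻¹ * f) := by
    have : y ^ (N + 1) * φ f ^ ((N + 1) * h) = 1 := by
      rw [mul_comm (N + 1), pow_mul, ← mul_pow, h3, one_pow]
    rw [map_mul]
    linear_combination (φ (C c⁻¹) * φ f) * this - y ^ (N + 1) * h2 -
      y ^ (N + 1) * φ (C c⁻¹) * h1
  set s : Fin (N + 1) → F[X] := fun i => r i.rev with hs
  have h5 : ∑ i, φ (s i) * y ^ (i : ℕ) = 0 := by
    have e := AdjoinRoot.mk_eq_zero.2 hX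
    rw [← Equiv.sum_comp Fin.revPerm, ← mul_zero (y ^ N), ← e, map_sum, mul_sum]
    refine sum_congr rfl fun i _ => ?_
    have e2 : y ^ N = y ^ (i.rev : ℕ) * y ^ (i : ℕ) := by
      rw [← pow_add, Fin.val_rev]
      congr 1
      omega
    have e3 : y ^ (i : ℕ) * φ f ^ (h * i) = 1 := by rw [pow_mul, ← mul_pow, h3, one_pow]
    simp only [hs, Fin.revPerm_apply, Fin.rev_rev, map_mul, map_pow]
    rw [e2]
    linear_combination -(φ (r i) * y ^ (i.rev : ℕ)) * e3
  set M := mat (C c⁻¹ * f) s with hM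
  have h6 : M.det = 0 := by
    have e1 : (φ.mapMatrix M).mulVec (fun i => y ^ (i : ℕ)) = 0 := funext fun j => by
      have := mat_row (C c⁻¹ * f) s φ h4 j
      rw [h5, mul_zero] at this
      exact this
    have e2 := congrFun (congrArg ((φ.mapMatrix M).adjugate.mulVec) e1) 0
    rw [Matrix.mulVec_mulVec, Matrix.adjugate_mul, Matrix.mulVec_zero, Matrix.smul_mulVec,
      Matrix.one_mulVec, ← RingHom.map_det] at e2
    refine eq_zero_of_dvd_of_natDegree_lt (AdjoinRoot.mk_eq_zero.1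
      (show φ M.det = 0 by simpa using e2)) ?_
    have e3 := mat_deg (C c⁻¹ * f) (s := s) (d := d) fun i => hr _
    have e4 := natDegree_C_mul_le c⁻¹ f
    have e5 : (N + 1) * (d + (C c⁻¹ * f).natDegree) ≤ (N + 1) * h :=
      Nat.mul_le_mul_left _ (by omega)
    rw [natDegree_X_pow, hM]
    omega
  obtain ⟨v, hv0, hv⟩ := Matrix.exists_vecMul_eq_zero_iff.2 h6
  have hp := hf.prime (by omega) (inv_ne_zero hc0)
  set P : F[X][X] := X ^ (N + 1) - C (C c⁻¹ * f) with hP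
  have hPd : P.degree = (N + 1 : ℕ) := degree_X_pow_sub_C (by omega) _
  have h7 : AdjoinRoot.root P ^ (N + 1) = AdjoinRoot.of P (C c⁻¹ * f) := by
    have := AdjoinRoot.mk_self (f := P)
    rw [hP, map_sub, map_pow, AdjoinRoot.mk_X, AdjoinRoot.mk_C] at this
    exact sub_eq_zero.1 this
  have h8 : P ∣ (∑ i, C (v i) * X ^ (i : ℕ)) * ∑ i, C (s i) * X ^ (i : ℕ) := by
    rw [← AdjoinRoot.mk_eq_zero, map_mul, map_sum, map_sum, sum_mul]
    simp only [map_mul, map_pow, AdjoinRoot.mk_X, AdjoinRoot.mk_C, mul_assoc]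
    simp only [← mat_row _ s _ h7, mul_sum, ← mul_assoc, ← map_mul]
    rw [sum_comm]
    refine sum_eq_zero fun k _ => ?_
    rw [← sum_mul, ← map_sum]
    have := congrFun hv k
    rw [Matrix.vecMul, dotProduct] at this
    rw [this, Pi.zero_apply, map_zero, zero_mul]
  rcases hp.dvd_or_dvd h8 with e | e
  · exact absurd (funext (low_zero hPd e)) hv0
  · simpa [hs] using low_zero hPd e j.rev

end Pool.Agent.Lib.MP_a8c702_nt.RG
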