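import Pool.Agent.Lib.MP_a8c702_nt.RI.Sums
import Pool.Agent.Lib.MP_a8c702_nt.RI.Ana

/-! Weighted sums along a pencil of quadratics. -/

namespace Pool.Agent.Lib.MP_a8c702_nt.RG

open Polynomial Finset Pool.Agent.FW

variable {K L : Type} [Field K] [Fintype K] [DecidableEq K] [Field L] [Algebra K L] {g : L} {M : ℕ}
  {Ψ : L → ℂ}

theorem Pk.one (h : Pk (K := K) g M Ψ) : Ψ 1 = 1 := by
  have := h.mul g 1
  rw [mul_one, h.gen] at this
  exact (mul_left_cancel₀ (Complex.exp_ne_zero _) (this.symm.trans (mul_one _).symm))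

theorem Pk.pow (h : Pk (K := K) g M Ψ) (y : L) (n : ℕ) : Ψ (y ^ n) = Ψ y ^ n := by
  induction n with
  | zero => simp [h.one]
  | succ n ih => rw [pow_succ, h.mul, ih, pow_succ]

theorem Pk.wt_pow (h : Pk (K := K) g M Ψ) (n : ℕ) :
    wt (Ψ (g ^ n)) = |Real.cos (Real.pi * (n / M))| ^ 24 := by
  rw [← wt_exp, h.pow, h.gen, ← Complex.exp_nat_mul]
  congr 2
  push_cast
  ring

theorem Pk.unit (h : Pk (K := K) g M Ψ) (hL : ∀ y : L, y ≠ 0 → y ^ M = 1) {y : L} (hy : y ≠ 0) :
    Ψ y ^ M = 1 := by rw [← h.pow, hL y hy, h.one]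

theorem Pk.norm_mul_le (h : Pk (K := K) g (M + 1) Ψ) (hL : ∀ y : L, y ≠ 0 → y ^ (M + 1) = 1)
    {y : L} (hy : y ≠ 0) (j : ℕ) (s : ℂ) : ‖Ψ y ^ j * s‖ = ‖s‖ := by
  rw [norm_mul, norm_pow, Complex.norm_eq_one_of_pow_eq_one (h.unit hL hy) (by omega), one_pow,
    one_mul]

theorem Pk.lower (h : Pk (K := K) g (M + 1) Ψ) (hL : ∀ y : L, y ≠ 0 → y ^ (M + 1) = 1)
    (hM : 12 ≤ M) (hc : ringChar K ≠ 2) (hl : 6 ≤ (Fintype.card K).sqrt) {c e : L} (c0 : c ≠ 0)
    (he : e ∉ Set.range (algebraMap K L)) {D1 D2 : K[X]} (p1 : Pos D1) (p2 : Pos D2)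
    (p3 : Pos (D1 * D2)) (d1 : D1.natDegree ≤ 2) (d2 : D2.natDegree ≤ 2) :
    mu * Fintype.card K ≤ 4 * ∑ t with quadraticChar K (D1.eval t) = 1 ∧
      quadraticChar K (D2.eval t) = 1, wt (Ψ (c * (e - algebraMap K L t))) +
      64 * √(Fintype.card K) := by
  have ne : ∀ t, e - algebraMap K L t ≠ 0 := fun t k => he ⟨t, (sub_eq_zero.1 k).symm⟩
  let r : K → ℤ := fun t => 1 + quadraticChar K (D1.eval t) + quadraticChar K (D2.eval t) +
    quadraticChar K ((D1 * D2).eval t)
  have h1 := mean1 (z := fun t => Ψ (c * (e - algebraMap K L t))) (ρ := fun t => r t)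
    (E := 40 * √(Fintype.card K)) hM (fun t => h.unit hL (mul_ne_zero c0 (ne t))) fun j hj => by
      simp only [h.mul, mul_pow, mul_assoc]
      rw [← mul_sum, h.norm_mul_le hL c0]
      have a1 := h.sumA e he j hj 1 1 one_ne_zero one_ne_zero (by simp) (by simp)
      have a2 := h.sumA e he j hj D1 1 p1.1 one_ne_zero d1 (by simp)
      have a3 := h.sumA e he j hj D2 1 p2.1 one_ne_zero d2 (by simp)
      have a4 := h.sumA e he j hj D1 D2 p1.1 p2.1 d1 d2
      simp only [mul_one, eval_one, map_one] at a1 a2 a3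
      simp only [r, Int.cast_add, mul_add, sum_add_distrib]
      linarith [norm_add_le_of_le (norm_add_le_of_le (norm_add_le_of_le a1 a2) a3) a4]
  have h2 : |∑ t, wt (Ψ (c * (e - algebraMap K L t))) * r t - mu * (∑ t, r t : ℤ)| ≤
      40 * √(Fintype.card K) := by
    rw [← Real.norm_eq_abs, ← Complex.norm_real]
    push_cast
    exact h1
  have dfg : (D1 * D2).natDegree ≤ 4 := natDegree_mul_le.trans (by omega)
  have h3 : (Fintype.card K : ℝ) - 96 * √(Fintype.card K) ≤ (∑ t, r t : ℤ) := by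
    have e1 := sum_ge hc hl p1 d1 (by norm_num)
    have e2 := sum_ge hc hl p2 d2 (by norm_num)
    have e3 := sum_ge hc hl p3 dfg (by norm_num)
    have e4 : (Fintype.card K : ℤ) - 96 * (Fintype.card K).sqrt ≤ ∑ t, r t := by
      simp only [r, sum_add_distrib, sum_const, card_univ, nsmul_eq_mul, mul_one]
      push_cast at e1 e2 e3
      linarith
    have e5 : (Fintype.card K : ℝ) - 96 * (Fintype.card K).sqrt ≤ (∑ t, r t : ℤ) := by
      exact_mod_cast e4
    linarith [Real.nat_sqrt_le_real_sqrt (a := Fintype.card K)]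
  have h4 : (#{x : K | (D1 * D2).eval x = 0} : ℝ) ≤ 4 := by
    exact_mod_cast (card_le_degree_of_subset_roots fun x hx =>
      (mem_roots p3.1).2 (mem_filter.1 hx).2).trans dfg
  have h5 : ∑ t, wt (Ψ (c * (e - algebraMap K L t))) * r t ≤ ∑ t, (4 * (if quadraticChar K
      (D1.eval t) = 1 ∧ quadraticChar K (D2.eval t) = 1 then wt (Ψ (c * (e - algebraMap K L t)))
      else 0) + 2 * if (D1 * D2).eval t = 0 then 1 else 0) := by
    refine sum_le_sum fun x _ => ?_
    have w0 := wt_nonneg (Ψ (c * (e - algebraMap K L x)))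
    have w1 := wt_le (h.unit hL (mul_ne_zero c0 (ne x)))
    generalize wt (Ψ (c * (e - algebraMap K L x))) = w at w0 w1
    simp only [r, eval_mul, map_mul]
    by_cases a : D1.eval x = 0 <;> by_cases b : D2.eval x = 0
    · simp [a, b]; linarith
    · rcases quadraticChar_dichotomy b with k | k <;> simp [a, k]; linarith
    · rcases quadraticChar_dichotomy a with k | k <;> simp [b, k]; linarith
    · rcases quadraticChar_dichotomy a with k | k <;>
        rcases quadraticChar_dichotomy b with k' | k' <;> simp [a, b, k, k']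
      linarith
  rw [sum_add_distrib, ← mul_sum, ← mul_sum, sum_boole, ← sum_filter] at h5
  have h6 : (1 : ℝ) ≤ √(Fintype.card K) := Real.one_le_sqrt.2 (Nat.one_le_cast.2 Fintype.card_pos)
  have h7 := (abs_le.1 h2).1
  rw [mu_eq] at h7 ⊢
  linarith

omit [DecidableEq K] in
theorem nonconj (h3 : Module.finrank K L = 3) (h2 : (2 : K) ≠ 0) {e e' : L}
    (he : Bas (algebraMap K L) e) (he' : Bas (algebraMap K L) e') {s p c : K} (hn : s ≠ 0 ∨ p ≠ 0)
    (r : algebraMap K L s * e * e' - algebraMap K L p * (e + e') + algebraMap K L c = 0) :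
    aeval e (minpoly K e') ≠ 0 := fun h => by
  have : FiniteDimensional K L := Module.finite_of_finrank_pos (by omega)
  have : Finite L := Module.finite_of_finite K
  have := Fintype.ofFinite L
  rw [← eval_map_algebraMap, map_minpoly (Algebra.IsIntegral.isIntegral e'), eval_prod,
    prod_eq_zero_iff] at h
  obtain ⟨i, -, h⟩ := h
  rw [eval_sub, eval_X, eval_C, sub_eq_zero, ← fr_apply] at h
  set σ := fr K L i with hσ
  have h1 : σ (σ (σ e')) = e' := by
    have : e' ^ Nat.card K ^ 3 = e' := by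
      rw [Nat.card_eq_fintype_card, ← h3, ← Module.card_eq_pow_finrank, FiniteField.pow_card]
    rw [hσ, fr_apply, fr_apply, fr_apply, ← pow_mul, ← pow_mul, ← pow_add, ← pow_add,
      show i + (i + i) = 3 * i by ring, pow_mul (Nat.card K), fix_pow this]
  have h4 := congrArg σ r
  simp only [map_add, map_sub, map_mul, AlgHom.commutes, map_zero, ← h] at h4
  have h5 : (σ e - e') * (algebraMap K L s * e - algebraMap K L p) = 0 := by
    linear_combination h4 - r
  rcases mul_eq_zero.1 h5 with k | k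
  · have h6 : e = e' := by rw [← h1, ← h, sub_eq_zero.1 k, ← h]
    obtain ⟨-, a, b⟩ := he'.ind c (-(2 * p)) s (by
      simp only [map_neg, map_mul, map_ofNat]
      rw [h6] at r
      linear_combination r)
    simp [b, (mul_eq_zero.1 (neg_eq_zero.1 a)).resolve_left h2] at hn
  · obtain ⟨a, b, -⟩ := he.ind (-p) s 0 (by
      simp only [map_neg, map_zero]
      linear_combination k)
    simp [b, neg_eq_zero.1 a] at hn

theorem Pk.upper (h : Pk (K := K) g (M + 1) Ψ) (hL : ∀ y : L, y ≠ 0 → y ^ (M + 1) = 1)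
    (hM : 12 ≤ M) (h2 : (2 : K) ≠ 0) (h3 : Module.finrank K L = 3) {θ lam : L}
    (hθ : θ ∉ Set.range (algebraMap K L)) (l0 : lam ≠ 0) {s0 p0 s1 p1 : K} (hn : s1 ≠ 0 ∨ p1 ≠ 0)
    (t1 : ∀ x, x ^ 2 - s0 * x + p0 = 0 → p1 - s1 * x ≠ 0) (T : Finset K) (x1 x2 : K → K)
    (hx : ∀ t ∈ T, x1 t ≠ x2 t ∧ x1 t + x2 t = s0 + s1 * t ∧ x1 t * x2 t = p0 + p1 * t) :
    2 * ∑ t ∈ T, wt (Ψ (lam * (θ - algebraMap K L (x1 t)))) *
      wt (Ψ (lam * (θ - algebraMap K L (x2 t)))) ≤
      mu ^ 2 * Fintype.card K + 14 * √(Fintype.card K) := by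
  set ι := algebraMap K L with hι
  have B := bas θ h3 hθ
  have w0 : ι p1 - ι s1 * θ ≠ 0 := fun k => by
    obtain ⟨a, b, -⟩ := B.ind p1 (-s1) 0 (by
      simp only [map_neg, map_zero]
      linear_combination k)
    simp [a, neg_eq_zero.1 b] at hn
  obtain ⟨θ', r⟩ : ∃ θ', ι s1 * θ * θ' - ι p1 * (θ + θ') + ι (s0 * p1 - s1 * p0) = 0 :=
    ⟨(ι (s0 * p1 - s1 * p0) - ι p1 * θ) / (ι p1 - ι s1 * θ), by field_simp; ring⟩
  have hθ' : θ' ∉ Set.range ι := by
    rintro ⟨y, rfl⟩
    obtain ⟨a, b, -⟩ := B.ind (s0 * p1 - s1 * p0 - p1 * y) (s1 * y - p1) 0 (by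
      simp only [map_sub, map_mul, map_zero] at r ⊢
      linear_combination r)
    have hs : s1 ≠ 0 := by
      rintro rfl
      simp at b hn
      exact hn b
    exact t1 y (mul_left_cancel₀ hs (by linear_combination (y - s0) * b - a - y * b + y * b))
      (by linear_combination -b)
  have B' := bas θ' h3 hθ'
  have n1 := nonconj h3 h2 B B' hn r
  have n2 := nonconj h3 h2 B' B (c := s0 * p1 - s1 * p0) hn (by linear_combination r)
  let D : K[X] := C (-s1) * X + C p1
  have D0 : D ≠ 0 := fun k => by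
    have a := congrArg (coeff · 0) k
    have b := congrArg (coeff · 1) k
    simp [D] at a b
    simp [a, b] at hn
  have D1 : D.natDegree ≤ 1 := natDegree_linear_le
  have De : ∀ x, D.eval x = p1 - s1 * x := fun x => by simp [D]; ring
  let iv : K → K := fun x => (s0 * p1 - s1 * p0 - p1 * x) / (p1 - s1 * x)
  let z : K → ℂ := fun x => Ψ (lam * (θ - ι x))
  have zu : ∀ x, z x ^ (M + 1) = 1 := fun x => h.unit hL (mul_ne_zero l0 (B.ne x))
  let ρ : K → ℝ := fun x => if p1 - s1 * x = 0 then 0 else 1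
  have c0 : -lam * (ι p1 - ι s1 * θ) ≠ 0 := mul_ne_zero (neg_ne_zero.2 l0) w0
  have e1 : ∀ x j, z (iv x) ^ j * ρ x = Ψ (-lam * (ι p1 - ι s1 * θ)) ^ j *
      (Ψ (θ' - ι x) ^ j * Ψ (ι (D.eval x)) ^ (M * j + (M + 1))) := fun x j => by
    rw [De]
    by_cases k : p1 - s1 * x = 0
    · simp [ρ, k, h.zero]
    have k' : ι (p1 - s1 * x) ≠ 0 := (_root_.map_ne_zero ι).2 k
    have e2 : lam * (θ - ι (iv x)) =
        -lam * (ι p1 - ι s1 * θ) * ((θ' - ι x) * ι (p1 - s1 * x) ^ M) := by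
      refine mul_right_cancel₀ k' ?_
      rw [mul_assoc _ _ (ι _), mul_assoc _ _ (ι _), mul_assoc _ _ (ι _), ← pow_succ, hL _ k',
        sub_mul, ← map_mul, div_mul_cancel₀ _ k]
      simp only [map_sub, map_mul] at r ⊢
      linear_combination -lam * r
    simp only [z, ρ, if_neg k, e2, h.mul _ (_ * _ ^ M), h.mul _ (_ ^ M), h.pow, pow_add _ (M * j),
      h.unit hL k', mul_pow, pow_mul]
    simp
  have m1 := mean1 (z := fun x => z (iv x)) (ρ := fun x => ρ x) (E := 7 * √(Fintype.card K)) hM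
    (fun x => zu _) fun j hj => by
      simp only [e1]
      rw [← mul_sum, h.norm_mul_le hL c0]
      simpa using h.sumB θ' hθ' θ n2 j hj 0 (M * j + (M + 1)) D D0 D1
  have m2 := mean1 (z := z) (ρ := fun x => wt (z (iv x)) * ρ x) (E := 7 * √(Fintype.card K)) hM zu
    fun i hi => by
      simp only [mul_left_comm (z _ ^ i)]
      refine mean0 (M := M) (fun x => zu _) fun j => ?_
      simp only [mul_left_comm (z (iv _) ^ j), e1]
      simp only [z, h.mul lam, mul_pow, mul_assoc, mul_left_comm (Ψ (θ - _) ^ i)]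
      rw [← mul_sum, h.norm_mul_le hL l0, ← mul_sum, h.norm_mul_le hL c0]
      simpa only [mul_left_comm (Ψ (θ - _) ^ i), mul_assoc] using
        h.sumB θ hθ θ' n1 i hi j (M * j + (M + 1)) D D0 D1
  have m3 : |∑ x, wt (z (iv x)) * ρ x - mu * ∑ x, ρ x| ≤ 7 * √(Fintype.card K) := by
    rw [← Real.norm_eq_abs, ← Complex.norm_real]
    push_cast
    exact m1
  have m4 : |∑ x, wt (z x) * (wt (z (iv x)) * ρ x) - mu * ∑ x, wt (z (iv x)) * ρ x| ≤
      7 * √(Fintype.card K) := by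
    rw [← Real.norm_eq_abs, ← Complex.norm_real]
    push_cast
    exact m2
  have m5 : ∑ x, ρ x ≤ Fintype.card K := by
    simpa using sum_le_card_nsmul univ ρ 1 fun x _ => by simp only [ρ]; split_ifs <;> simp
  have uq : ∀ x t t', x ^ 2 - (s0 + s1 * t) * x + (p0 + p1 * t) = 0 →
      x ^ 2 - (s0 + s1 * t') * x + (p0 + p1 * t') = 0 → t = t' := fun x t t' a b =>
    mul_left_cancel₀ (fun k => t1 x (by linear_combination a - t * k) k) (by linear_combination a - b)
  have r1 : ∀ t ∈ T, x1 t ^ 2 - (s0 + s1 * t) * x1 t + (p0 + p1 * t) = 0 := fun t ht => by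
    rw [← (hx t ht).2.1, ← (hx t ht).2.2]; ring
  have r2 : ∀ t ∈ T, x2 t ^ 2 - (s0 + s1 * t) * x2 t + (p0 + p1 * t) = 0 := fun t ht => by
    rw [← (hx t ht).2.1, ← (hx t ht).2.2]; ring
  have val : ∀ x y t, x + y = s0 + s1 * t → x * y = p0 + p1 * t →
      wt (z x) * (wt (z (iv x)) * ρ x) = wt (z x) * wt (z y) := fun x y t a b => by
    have k : p1 - s1 * x ≠ 0 := fun k => t1 x (by linear_combination x * a - b - t * k) k
    have : iv x = y := by
      rw [div_eq_iff k]
      linear_combination s1 * b - p1 * a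
    simp [ρ, k, this]
  have m6 := sum_le_sum_of_subset_of_nonneg (f := fun x => wt (z x) * (wt (z (iv x)) * ρ x))
    (subset_univ (T.image x1 ∪ T.image x2)) fun x _ _ => mul_nonneg (wt_nonneg _)
      (mul_nonneg (wt_nonneg _) (by simp only [ρ]; split_ifs <;> simp))
  rw [sum_union (disjoint_left.2 fun x a b => by
      obtain ⟨t, ht, rfl⟩ := mem_image.1 a
      obtain ⟨t', ht', e⟩ := mem_image.1 b
      obtain rfl := uq _ t t' (r1 t ht) (e ▸ r2 t' ht')
      exact (hx t ht).1 e.symm),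
    sum_image (g := x1) fun t ht t' ht' e => uq _ t t' (r1 t ht) (by rw [e]; exact r1 t' ht'),
    sum_image (g := x2) fun t ht t' ht' e => uq _ t t' (r2 t ht) (by rw [e]; exact r2 t' ht'),
    sum_congr rfl fun t ht => val _ _ t (hx t ht).2.1 (hx t ht).2.2,
    sum_congr rfl fun t ht => (val _ (x1 t) t (by rw [add_comm, (hx t ht).2.1])
      (by rw [mul_comm, (hx t ht).2.2])).trans (mul_comm _ _), ← two_mul] at m6
  refine m6.trans ?_
  have a := (abs_le.1 m3).2
  have b := (abs_le.1 m4).2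
  have c := Real.sqrt_nonneg (Fintype.card K : ℝ)
  rw [mu_eq] at a b ⊢
  linarith

end Pool.Agent.Lib.MP_a8c702_nt.RG
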