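import Pool.Agent.Lib.MP_a8c702_nt.RI.Step
import Pool.Agent.Lib.MP_2c63aa_nt.FW.Short

/-! Sums of a multiplicative character of norms of polynomial values over large extensions. -/

namespace Pool.Agent.Lib.MP_a8c702_nt.RG

open Polynomial Finset Filter Pool.Agent.Lib.MP_639284_nt

variable {Ω : Type} [Field Ω]

/-- a faithful multiplicative character of the field with `Q` elements inside `Ω` -/
structure Ch (Q : ℕ) (ω : Ω → ℂ) : Prop where
  zero : ω 0 = 0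
  one : ω 1 = 1
  mul : ∀ a b, a ^ Q = a → b ^ Q = b → ω (a * b) = ω a * ω b
  inj : ∀ a, a ^ Q = a → ω a = 1 → a = 1

theorem Ch.pow {Q : ℕ} {ω : Ω → ℂ} (h : Ch Q ω) {a : Ω} (ha : a ^ Q = a) (n : ℕ) :
    ω (a ^ n) = ω a ^ n := by
  induction n with
  | zero => simp [h.one]
  | succ n ih => rw [pow_succ, h.mul _ _ (by rw [pow_right_comm, ha]) ha, ih, pow_succ]

theorem Ch.norm_eq {Q : ℕ} {ω : Ω → ℂ} (h : Ch Q ω) (hQ : 1 < Q) {a : Ω} (ha : a ^ Q = a)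
    (h0 : a ≠ 0) : ‖ω a‖ = 1 := by
  obtain ⟨N, rfl⟩ : ∃ N, Q = N + 1 := ⟨Q - 1, by omega⟩
  refine Complex.norm_eq_one_of_pow_eq_one (n := N) ?_ (by omega)
  rw [← h.pow ha, mul_right_cancel₀ h0 ((pow_succ a N).symm.trans (ha.trans (one_mul a).symm)),
    h.one]

theorem Ch.norm_le {Q : ℕ} {ω : Ω → ℂ} (h : Ch Q ω) (hQ : 1 < Q) {a : Ω} (ha : a ^ Q = a) :
    ‖ω a‖ ≤ 1 := by
  rcases eq_or_ne a 0 with rfl | h0
  · simp [h.zero]
  · exact (h.norm_eq hQ ha h0).le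

variable [IsAlgClosed Ω] {p k : ℕ} [Fact p.Prime] [CharP Ω p]

omit [Fact p.Prime] in
theorem exists_prim (hk : 0 < k) {N n : ℕ} (hN : p ^ k = N + 1) (hn : n ∣ N) :
    ∃ w : Ω, IsPrimitiveRoot w n := by
  have : NeZero (n : Ω) := ⟨fun e => by
    obtain ⟨c, rfl⟩ := hn
    have := congrArg (Nat.cast : ℕ → Ω) hN
    simp [e, hk.ne'] at this⟩
  exact HasEnoughRootsOfUnity.exists_primitiveRoot Ω n

theorem exists_ch (hk : 0 < k) : ∃ ω : Ω → ℂ, Ch (p ^ k) ω := by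
  classical
  have h1 := Nat.one_lt_pow hk.ne' (Fact.out : p.Prime).one_lt
  obtain ⟨N, hN⟩ : ∃ N, p ^ k = N + 1 := ⟨p ^ k - 1, by omega⟩
  have : NeZero N := ⟨by omega⟩
  obtain ⟨w, hw⟩ := exists_prim (Ω := Ω) hk hN dvd_rfl
  have hζ := Complex.isPrimitiveRoot_exp N (NeZero.ne N)
  set ζ := Complex.exp (2 * Real.pi * Complex.I / N)
  let ω : Ω → ℂ := fun z => if h : ∃ i : ℕ, w ^ i = z then ζ ^ h.choose else 0
  have key : ∀ i : ℕ, ω (w ^ i) = ζ ^ i := fun i => by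
    have h : ∃ j : ℕ, w ^ j = w ^ i := ⟨i, rfl⟩
    have h2 := h.choose_spec
    simp only [ω, dif_pos h]
    rw [(hζ.isOfFinOrder (NeZero.ne N)).pow_eq_pow_iff_modEq, ← hζ.eq_orderOf]
    rwa [(hw.isOfFinOrder (NeZero.ne N)).pow_eq_pow_iff_modEq, ← hw.eq_orderOf] at h2
  have z0 : ω 0 = 0 := dif_neg fun ⟨i, hi⟩ => pow_ne_zero i (hw.ne_zero (NeZero.ne N)) hi
  have gen : ∀ a : Ω, a ^ p ^ k = a → a ≠ 0 → ∃ i : ℕ, w ^ i = a := fun a ha h0 => by
    obtain ⟨i, -, hi⟩ := hw.eq_pow_of_pow_eq_one (ξ := a) (mul_right_cancel₀ h0 (by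
      rw [← pow_succ, ← hN, ha, one_mul]))
    exact ⟨i, hi⟩
  refine ⟨ω, z0, by simpa using key 0, fun a b ha hb => ?_, fun a ha e => ?_⟩
  · rcases eq_or_ne a 0 with rfl | a0
    · simp [z0]
    rcases eq_or_ne b 0 with rfl | b0
    · simp [z0]
    obtain ⟨i, rfl⟩ := gen a ha a0
    obtain ⟨j, rfl⟩ := gen b hb b0
    rw [← pow_add, key, key, key, pow_add]
  · obtain ⟨i, rfl⟩ := gen a ha (by rintro rfl; simp [z0] at e)
    rw [key, hζ.pow_eq_one_iff_dvd] at e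
    exact (hw.pow_eq_one_iff_dvd i).2 e

omit [IsAlgClosed Ω] in
theorem fix_pow {Q : ℕ} {a : Ω} (ha : a ^ Q = a) (s : ℕ) : a ^ Q ^ s = a := by
  induction s with
  | zero => simp
  | succ s ih => rw [pow_succ, pow_mul, ih, ha]

theorem kummer (hk : 0 < k) {ω : Ω → ℂ} (hω : Ch (p ^ k) ω) {F : Polynomial Ω}
    (hF : F.Monic) (hr : ∀ ε ∈ F.roots, ε ^ p ^ k = ε) :
    (∃ K : ℝ, ∀ᶠ s in atTop, ‖∑ x ∈ FQ Ω ((p ^ k) ^ (s * 2)),
      ω (F.eval x ^ ∑ i ∈ range (s * 2), (p ^ k) ^ i)‖ ≤ K * ((p ^ k : ℕ) : ℝ) ^ s) ∨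
    ∃ K : ℝ, ∀ᶠ s in atTop, ‖∑ x ∈ FQ Ω ((p ^ k) ^ s),
      ω (F.eval x ^ ∑ i ∈ range s, (p ^ k) ^ i) - ((p ^ k : ℕ) : ℂ) ^ s‖ ≤ K := by
  classical
  have h1 := Nat.one_lt_pow hk.ne' (Fact.out : p.Prime).one_lt
  obtain ⟨N, hN⟩ : ∃ N, p ^ k = N + 1 := ⟨p ^ k - 1, by omega⟩
  set g := Nat.gcd N (F.roots.toFinset.gcd fun ε => F.roots.count ε) with hg
  have g0 : 0 < g := Nat.gcd_pos_of_pos_left _ (by omega)
  obtain ⟨n, hn⟩ : ∃ n, N = g * (n + 1) := by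
    obtain ⟨n, hn⟩ : g ∣ N := Nat.gcd_dvd_left _ _
    rcases n with _ | n
    · omega
    · exact ⟨n, hn⟩
  set G : Polynomial Ω := ∏ ε ∈ F.roots.toFinset, (X - C ε) ^ (F.roots.count ε / g) with hG
  have hFG : F = G ^ g := by
    rw [hG, ← prod_pow]
    conv_lhs => rw [(IsAlgClosed.splits F).eq_prod_roots_of_monic hF, prod_multiset_map_count]
    refine prod_congr rfl fun ε hε => ?_
    rw [← pow_mul, Nat.div_mul_cancel (show g ∣ F.roots.count ε from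
      (Nat.gcd_dvd_right _ _).trans (gcd_dvd hε))]
  have hG0 : G ≠ 0 := fun e => hF.ne_zero (by rw [hFG, e, zero_pow g0.ne'])
  have hK : Kum (n + 1) G := fun d d0 d1 c H hc e => by
    have e1 : C (c ^ g) * F ^ d = H ^ N := by
      rw [hFG, hn, mul_comm g, pow_mul H, ← e, mul_pow, C_pow, pow_right_comm]
    have e2 := congrArg roots e1
    rw [roots_C_mul _ (pow_ne_zero _ hc), roots_pow, roots_pow] at e2
    have e3 : N ∣ d * g := by
      rw [hg, ← Nat.gcd_mul_left]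
      refine Nat.dvd_gcd (dvd_mul_left _ _) ?_
      have := gcd_mul_left (s := F.roots.toFinset) (f := fun ε => F.roots.count ε) (a := d)
      rw [normalize_eq] at this
      rw [← this]
      refine dvd_gcd fun ε _ => ⟨H.roots.count ε, ?_⟩
      simpa using congrArg (Multiset.count ε) e2
    rw [hn, mul_comm d] at e3
    exact absurd (Nat.le_of_dvd d0 (Nat.dvd_of_mul_dvd_mul_left g0 e3)) (by omega)
  have geo : ∀ s, (p ^ k) ^ s = (n + 1) * (g * ∑ i ∈ range s, (p ^ k) ^ i) + 1 := fun s => by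
    have := geom_sum_mul_add N s
    rw [← hN] at this
    rw [← this, hn]
    ring
  have val : ∀ s, 0 < s → ∀ x ∈ FQ Ω ((p ^ k) ^ s), G.eval x ≠ 0 →
      (G.eval x ^ (g * ∑ i ∈ range s, (p ^ k) ^ i)) ^ (n + 1) = 1 := fun s hs x hx h0 => by
    rw [mem_FQ (Nat.one_lt_pow hs.ne' h1)] at hx
    refine mul_right_cancel₀ h0 ?_
    rw [← pow_mul, ← pow_succ, mul_comm, ← geo, one_mul, hG, eval_prod, ← prod_pow]
    refine prod_congr rfl fun ε hε => ?_
    rw [eval_pow, pow_right_comm, eval_sub, eval_X, eval_C, ← pow_mul p, sub_pow_char_pow, pow_mul p,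
      hx, fix_pow (hr ε (Multiset.mem_toFinset.1 hε))]
  have zer : ∀ S : Finset Ω, #{x ∈ S | G.eval x = 0} ≤ G.natDegree := fun S =>
    card_le_degree_of_subset_roots fun x hx => (mem_roots hG0).2 (mem_filter.1 hx).2
  have car : ∀ s, 0 < s → #(FQ Ω ((p ^ k) ^ s)) = (p ^ k) ^ s := fun s hs =>
    card_FQ Ω (Nat.one_lt_pow hs.ne' h1) p ((dvd_pow_self p hk.ne').trans (dvd_pow_self _ hs.ne'))
  have big : ∀ s, s ≤ g * ∑ i ∈ range s, (p ^ k) ^ i := fun s => by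
    have := card_nsmul_le_sum (range s) (fun i => (p ^ k) ^ i) 1 fun i _ =>
      Nat.one_le_pow _ _ (by omega)
    simp only [card_range, smul_eq_mul, mul_one] at this
    exact this.trans (Nat.le_mul_of_pos_left _ g0)
  have spl : ∀ s, 0 < s → ∑ x ∈ FQ Ω ((p ^ k) ^ s), ω (F.eval x ^ ∑ i ∈ range s, (p ^ k) ^ i) =
      ∑ x ∈ FQ Ω ((p ^ k) ^ s) with ¬G.eval x = 0,
        ω (G.eval x ^ (g * ∑ i ∈ range s, (p ^ k) ^ i)) := fun s hs => by
    rw [sum_filter]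
    refine sum_congr rfl fun x _ => ?_
    rw [hFG, eval_pow, ← pow_mul]
    split_ifs with h
    · rw [h, zero_pow (hs.trans_le (big s)).ne', hω.zero]
    · rfl
  rcases Nat.eq_zero_or_pos n with rfl | n0
  · refine .inr ⟨G.natDegree, ?_⟩
    filter_upwards [eventually_gt_atTop 0] with s hs
    rw [spl s hs, sum_congr rfl fun x hx => (congrArg ω ((pow_one _).symm.trans
      (val s hs x (mem_filter.1 hx).1 (mem_filter.1 hx).2))).trans hω.one, sum_const, nsmul_eq_mul,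
      mul_one, ← Nat.cast_pow]
    have c0 := card_filter_add_card_filter_not (s := FQ Ω ((p ^ k) ^ s)) fun x => G.eval x = 0
    have c1 := zer (FQ Ω ((p ^ k) ^ s))
    rw [car s hs] at c0
    generalize #{x ∈ FQ Ω ((p ^ k) ^ s) | G.eval x = 0} = a at c0 c1
    generalize #{x ∈ FQ Ω ((p ^ k) ^ s) | ¬G.eval x = 0} = b at c0 ⊢
    rw [← c0]
    simpa using c1
  refine .inl ⟨(n + 1) * (3 * G.natDegree + 3) + G.natDegree, ?_⟩
  obtain ⟨w, hw⟩ := exists_prim (Ω := Ω) hk hN (hn ▸ dvd_mul_left (n + 1) g)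
  have fix : ∀ a : Ω, a ^ (n + 1) = 1 → a ^ p ^ k = a := fun a ha => by
    rw [hN, hn, pow_succ, mul_comm g, pow_mul, ha, one_pow, one_mul]
  set T := nthRootsFinset (n + 1) (1 : Ω) with hT
  have mT : ∀ a, a ∈ T ↔ a ^ (n + 1) = 1 := fun a => mem_nthRootsFinset (by omega) _
  have w0 := hw.ne_zero (by omega)
  have sT : ∑ a ∈ T, ω a = 0 := by
    refine eq_zero_of_mul_eq_self_left
      (fun e => hw.ne_one (by omega) (hω.inj w (fix w hw.pow_eq_one) e)) ?_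
    rw [mul_sum]
    refine sum_nbij' (fun a => w * a) (fun a => w⁻¹ * a) (fun a ha => ?_) (fun a ha => ?_)
      (fun a _ => inv_mul_cancel_left₀ w0 a) (fun a _ => mul_inv_cancel_left₀ w0 a) fun a ha =>
        (hω.mul _ _ (fix w hw.pow_eq_one) (fix a ((mT a).1 ha))).symm
    · rw [mT, mul_pow, hw.pow_eq_one, (mT a).1 ha, one_mul]
    · rw [mT, mul_pow, inv_pow, hw.pow_eq_one, (mT a).1 ha, inv_one, one_mul]
  filter_upwards [eventually_gt_atTop 0,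
    eventually_ge_atTop ((G.natDegree + 4) * ((n + 1) * G.natDegree + 2))] with s hs hs'
  have hs2 : 0 < s * 2 := by omega
  set h := g * ∑ i ∈ range (s * 2), (p ^ k) ^ i with hh
  set S := {x ∈ FQ Ω ((p ^ k) ^ (s * 2)) | ¬G.eval x = 0} with hS
  have c0 := card_filter_add_card_filter_not (s := FQ Ω ((p ^ k) ^ (s * 2))) fun x => G.eval x = 0
  have c1 := zer (FQ Ω ((p ^ k) ^ (s * 2)))
  rw [car _ hs2, ← hS] at c0
  obtain ⟨x0, hx0⟩ : S.Nonempty := by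
    have e1 := big (s * 2)
    have e2 := geo (s * 2)
    have e3 : G.natDegree + 4 ≤ s := (Nat.le_mul_of_pos_right _ (by omega)).trans hs'
    have e4 := Nat.le_mul_of_pos_left (g * ∑ i ∈ range (s * 2), (p ^ k) ^ i) (Nat.succ_pos n)
    rw [Nat.succ_eq_add_one] at e4
    exact card_pos.1 (by omega)
  have hm : ∀ x ∈ FQ Ω ((p ^ k) ^ (s * 2)), x ^ p ^ (k * (s * 2)) = x := fun x hx => by
    rwa [pow_mul p, ← mem_FQ (Nat.one_lt_pow hs2.ne' h1)]
  have map : ∀ x ∈ S, G.eval x ^ h ∈ T := fun x hx =>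
    (mT _).2 (val _ hs2 x (mem_filter.1 hx).1 (mem_filter.1 hx).2)
  set l := (p ^ k) ^ s with hl
  set B : ℝ := l ^ 2 + (n + 1) * (3 * G.natDegree + 3) * l with hB
  have c2 : ∀ a ∈ T, (n + 1 : ℝ) * #{x ∈ S | G.eval x ^ h = a} ≤ B := fun a ha => by
    have := hK.count (k := k * (s * 2)) (h := h) (by rw [pow_mul, geo]) (geo s)
      (by rw [pow_mul, pow_mul]) (hs'.trans (big s)) (hm _ (mem_filter.1 hx0).1)
      (mem_filter.1 hx0).2 (a := a) (by rintro rfl; simpa using (mT 0).1 ha)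
      {x ∈ S | G.eval x ^ h = a} fun x hx =>
        ⟨hm _ (mem_filter.1 (mem_filter.1 hx).1).1, (mem_filter.1 hx).2⟩
    rw [hB, hl]
    exact_mod_cast this
  have c3 : (#S : ℝ) = ∑ a ∈ T, (#{x ∈ S | G.eval x ^ h = a} : ℝ) := by
    exact_mod_cast card_eq_sum_card_fiberwise map
  have c4 : (n + 1 : ℂ) * ∑ x ∈ S, ω (G.eval x ^ h) =
      ∑ a ∈ T, ω a * ((n + 1 : ℝ) * #{x ∈ S | G.eval x ^ h = a} - B : ℝ) := by
    rw [← sum_fiberwise_of_maps_to' map]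
    simp only [Complex.ofReal_sub, mul_sub, sum_sub_distrib, ← sum_mul, sT, mul_sum]
    rw [zero_mul, sub_zero]
    refine sum_congr rfl fun a _ => ?_
    rw [sum_const, nsmul_eq_mul]
    push_cast
    ring
  have c5 : ‖(n + 1 : ℂ) * ∑ x ∈ S, ω (G.eval x ^ h)‖ ≤ (n + 1) * B - (n + 1) * #S := by
    rw [c4]
    refine (norm_sum_le_of_le _ (n := fun a => B - (n + 1) * #{x ∈ S | G.eval x ^ h = a})
      fun a ha => ?_).trans (le_of_eq ?_)
    · rw [norm_mul, Complex.norm_real, Real.norm_of_nonpos (sub_nonpos.2 (c2 a ha)), neg_sub]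
      exact mul_le_of_le_one_left (sub_nonneg.2 (c2 a ha)) (hω.norm_le h1 (fix a ((mT a).1 ha)))
    · rw [sum_sub_distrib, ← mul_sum, ← c3, sum_const, hT, hw.card_nthRootsFinset, nsmul_eq_mul]
      push_cast
      ring
  rw [norm_mul, ← Nat.cast_succ, Complex.norm_natCast, Nat.cast_succ, ← mul_sub] at c5
  rw [spl _ hs2, ← Nat.cast_pow, ← hl]
  refine (le_of_mul_le_mul_left c5 (by positivity)).trans ?_
  have c6 : (l : ℝ) ^ 2 ≤ G.natDegree + #S := by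
    have : l ^ 2 ≤ G.natDegree + #S := by rw [hl, ← pow_mul]; omega
    exact_mod_cast this
  have c7 : (1 : ℝ) ≤ l := Nat.one_le_cast.2 (Nat.one_le_pow _ _ (by omega))
  have c8 : (0 : ℝ) ≤ G.natDegree := Nat.cast_nonneg _
  nlinarith

end Pool.Agent.Lib.MP_a8c702_nt.RG
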