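import Pool.Agent.Lib.MP_a8c702_nt.RI.Equi

/-! Rigidity of Bose-Chowla sets of integers. -/

namespace Pool.Agent.Lib.MP_a8c702_nt.RG

open Finset

variable {K L : Type} [Field K] [Field L] [Fintype K] [DecidableEq K]

theorem Bas.count {ι : K →+* L} {θ g : L} (h : Bas ι θ) (g0 : g ≠ 0) {A J : Finset ℤ} (h2 : W2 A)
    {bl : ℤ → ℤ} (hJ : ∀ a ∈ A, bl a ∈ J)
    (loc : ∀ a a' b b', bl a = bl a' → bl b = bl b' → g ^ a * g ^ b = g ^ a' * g ^ b' →
      a + b = a' + b')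
    (rat : ∀ y ∈ A, ∀ y' ∈ A, bl y = bl y' → (∃ k, g ^ y = g ^ y' * ι k) ∨
      ∃ x x', g ^ y * (θ - ι x) = g ^ y' * (θ - ι x')) :
    #A ≤ Fintype.card K + 6 * #J ^ 2 + 4 * #J * ((Fintype.card K).sqrt + 1) := by
  classical
  choose u1 u2 v w n1 n2 n3 n4 H using fun j => h.cover {z | ∃ y ∈ A, bl y = j ∧ z = g ^ y}
    (by rintro z ⟨y, -, -, rfl⟩; exact zpow_ne_zero _ g0) (by
      rintro z ⟨y, hy, e, rfl⟩ z' ⟨y', hy', e', rfl⟩
      exact rat y hy y' hy' (e.trans e'.symm))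
  let D : ℤ → L → Finset ℤ := fun j u => {y ∈ A | bl y = j ∧ ∃ k, g ^ y = u * ι k}
  have hD : ∀ j u, #(D j u) ≤ 2 * (Fintype.card K).sqrt + 2 := fun j u => by
    refine h2.card_le (S := image₂ (· + ·) (D j u) (D j u)) (filter_subset _ _)
      (fun a ha b hb => mem_image₂_of_mem ha hb) ?_
    rw [← card_image_of_injOn (f := fun s : ℤ => g ^ s) fun s hs s' hs' e => by
      obtain ⟨a, ha, b, hb, rfl⟩ := mem_image₂.1 hs
      obtain ⟨a', ha', b', hb', rfl⟩ := mem_image₂.1 hs'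
      exact loc _ _ _ _ ((mem_filter.1 ha).2.1.trans (mem_filter.1 ha').2.1.symm)
        ((mem_filter.1 hb).2.1.trans (mem_filter.1 hb').2.1.symm)
        (by simpa only [zpow_add₀ g0] using e)]
    refine (card_le_card (t := univ.image fun k => u * u * ι k) fun z hz => ?_).trans card_image_le
    obtain ⟨s, hs, rfl⟩ := mem_image.1 hz
    obtain ⟨a, ha, b, hb, rfl⟩ := mem_image₂.1 hs
    obtain ⟨k, hk⟩ := (mem_filter.1 ha).2.2
    obtain ⟨l, hl⟩ := (mem_filter.1 hb).2.2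
    exact mem_image.2 ⟨k * l, mem_univ _, by rw [zpow_add₀ g0, hk, hl, map_mul]; ring⟩
  let R : ℤ ⊕ ℤ → K → ℤ → Prop := fun i x y => y ∈ A ∧ i.elim
    (fun j => bl y = j ∧ g ^ y = v j * (θ - ι x)) fun j => bl y = j ∧ g ^ y * (θ - ι x) = w j
  let X : ℤ ⊕ ℤ → Finset K := fun i => {x | ∃ y, R i x y}
  have inj : ∀ x x', θ - ι x = θ - ι x' → x = x' := fun x x' e => ι.injective (sub_right_injective e)
  have opp : ∀ j j', #(X (.inl j) ∩ X (.inr j')) ≤ 3 := fun j j' => by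
    obtain ⟨a, b, hab⟩ : ∃ a b, ∀ x x', v j * (θ - ι x) * (θ - ι x') = w j' → x = a ∨ x = b := by
      by_cases e : ∃ a b, v j * (θ - ι a) * (θ - ι b) = w j'
      · obtain ⟨a, b, e⟩ := e
        exact ⟨a, b, fun x x' e' => (h.two (mul_left_cancel₀ (n3 j) (by
          rw [← mul_assoc, ← mul_assoc, e, e']))).imp_right And.left⟩
      · exact ⟨0, 0, fun x y e' => absurd ⟨x, y, e'⟩ e⟩
    refine card_le_three a b fun x hx x' hx' k1 k2 k3 k4 => ?_
    obtain ⟨y, y1, y2, y3⟩ := (mem_filter.1 (mem_inter.1 hx).1).2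
    obtain ⟨z, z1, z2, z3⟩ := (mem_filter.1 (mem_inter.1 hx).2).2
    obtain ⟨y', y1', y2', y3'⟩ := (mem_filter.1 (mem_inter.1 hx').1).2
    obtain ⟨z', z1', z2', z3'⟩ := (mem_filter.1 (mem_inter.1 hx').2).2
    rcases h2 y y1 z z1 y' y1' z' z1' (fun e => (hab x x (by rw [← y3, e, z3])).elim k1 k2)
      (fun e => (hab x' x' (by rw [← y3', e, z3'])).elim k3 k4)
      (loc _ _ _ _ (y2.trans y2'.symm) (z2.trans z2'.symm) (by
        rw [y3, y3']
        linear_combination v j * z3 - v j * z3')) with k | k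
    · exact inj _ _ (mul_left_cancel₀ (n3 j) (by rw [← y3, k, y3']))
    · exact ((hab x x' (by rw [← y3, k, z3'])).elim k1 k2).elim
  have h1 := bonf X (fun i i' hi => by
    rcases i with j | j <;> rcases i' with j' | j'
    · refine card_le_three 0 0 fun x hx x' hx' _ _ _ _ => ?_
      obtain ⟨y, y1, y2, y3⟩ := (mem_filter.1 (mem_inter.1 hx).1).2
      obtain ⟨z, z1, z2, z3⟩ := (mem_filter.1 (mem_inter.1 hx).2).2
      obtain ⟨y', y1', y2', y3'⟩ := (mem_filter.1 (mem_inter.1 hx').1).2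
      obtain ⟨z', z1', z2', z3'⟩ := (mem_filter.1 (mem_inter.1 hx').2).2
      rcases h2 y y1 z' z1' y' y1' z z1 (fun e => hi (by rw [← y2, e, z2']))
        (fun e => hi (by rw [← y2', e, z2])) (loc _ _ _ _ (y2.trans y2'.symm) (z2'.trans z2.symm)
          (by rw [y3, y3', z3, z3']; ring)) with k | k
      · exact inj _ _ (mul_left_cancel₀ (n3 j) (by rw [← y3, k, y3']))
      · exact absurd (by rw [← y2, k, z2]) hi
    · exact opp j j'
    · rw [inter_comm]
      exact opp j' j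
    · refine card_le_three 0 0 fun x hx x' hx' _ _ _ _ => ?_
      obtain ⟨y, y1, y2, y3⟩ := (mem_filter.1 (mem_inter.1 hx).1).2
      obtain ⟨z, z1, z2, z3⟩ := (mem_filter.1 (mem_inter.1 hx).2).2
      obtain ⟨y', y1', y2', y3'⟩ := (mem_filter.1 (mem_inter.1 hx').1).2
      obtain ⟨z', z1', z2', z3'⟩ := (mem_filter.1 (mem_inter.1 hx').2).2
      rcases h2 y y1 z' z1' y' y1' z z1 (fun e => hi (by rw [← y2, e, z2']))
        (fun e => hi (by rw [← y2', e, z2])) (loc _ _ _ _ (y2.trans y2'.symm) (z2'.trans z2.symm)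
          (mul_right_cancel₀ (mul_ne_zero (h.ne x) (h.ne x')) (by
            linear_combination (g ^ z' * (θ - ι x')) * y3 + w j * z3' - (g ^ z * (θ - ι x)) * y3' -
              w j * z3))) with k | k
      · exact inj _ _ (mul_left_cancel₀ (zpow_ne_zero y g0) (by rw [y3, k, y3']))
      · exact absurd (by rw [← y2, k, z2]) hi) (J.disjSum J)
  rw [card_disjSum] at h1
  have uq : ∀ y y', bl y = bl y' → g ^ y = g ^ y' → y = y' := fun y y' a b =>
    add_right_cancel (loc y y' 0 0 a rfl (by rw [b]))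
  have c1 : ∀ i, #{y ∈ A | ∃ x, R i x y} ≤ #(X i) := fun i => by
    choose! f hf using fun y (hy : y ∈ ({y ∈ A | ∃ x, R i x y} : Finset ℤ)) => (mem_filter.1 hy).2
    refine card_le_card_of_injOn f (fun y hy => mem_filter.2 ⟨mem_univ _, y, hf y hy⟩)
      fun y hy y' hy' e => ?_
    have a := (hf y hy).2
    have b := (hf y' hy').2
    rw [← e] at b
    rcases i with j | j
    · exact uq _ _ (a.1.trans b.1.symm) (a.2.trans b.2.symm)
    · exact uq _ _ (a.1.trans b.1.symm) (mul_right_cancel₀ (h.ne _) (a.2.trans b.2.symm))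
  have c2 : #(J.biUnion fun j => D j (u1 j) ∪ D j (u2 j)) ≤
      #J * (4 * (Fintype.card K).sqrt + 4) := card_biUnion_le_card_mul _ _ _ fun j _ =>
    (card_union_le _ _).trans ((add_le_add (hD _ _) (hD _ _)).trans (by omega))
  have c3 : #((J.disjSum J).biUnion fun i => {y ∈ A | ∃ x, R i x y}) ≤
      Fintype.card K + 6 * #J ^ 2 := by
    have a := (card_biUnion_le (s := J.disjSum J)).trans (sum_le_sum fun i _ => c1 i)
    have b := card_le_univ ((J.disjSum J).biUnion X)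
    nlinarith
  refine (card_le_card fun y hy => mem_union.2 ?_).trans ((card_union_le _ _).trans
    ((add_le_add c2 c3).trans_eq (by ring)))
  rcases H (bl y) _ ⟨y, hy, rfl, rfl⟩ with e | e | ⟨x, e⟩ | ⟨x, e⟩
  · exact .inl (mem_biUnion.2 ⟨_, hJ y hy, mem_union_left _ (mem_filter.2 ⟨hy, rfl, e⟩)⟩)
  · exact .inl (mem_biUnion.2 ⟨_, hJ y hy, mem_union_right _ (mem_filter.2 ⟨hy, rfl, e⟩)⟩)
  · exact .inr (mem_biUnion.2 ⟨.inl (bl y), inl_mem_disjSum.2 (hJ y hy),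
      mem_filter.2 ⟨hy, x, hy, rfl, e⟩⟩)
  · exact .inr (mem_biUnion.2 ⟨.inr (bl y), inr_mem_disjSum.2 (hJ y hy),
      mem_filter.2 ⟨hy, x, hy, rfl, e⟩⟩)

omit [DecidableEq K] in
theorem Bas.block {ι : K →+* L} {θ g : L} (h : Bas ι θ) (g0 : g ≠ 0) {A Y : Finset ℤ} (h2 : W2 A)
    (hY : Y ⊆ A) (loc : ∀ a ∈ Y, ∀ a' ∈ Y, ∀ b ∈ Y, ∀ b' ∈ Y, g ^ a * g ^ b = g ^ a' * g ^ b' →
      a + b = a' + b')
    (rat : ∀ y ∈ Y, ∀ y' ∈ Y, (∃ k, g ^ y = g ^ y' * ι k) ∨
      ∃ x x', g ^ y * (θ - ι x) = g ^ y' * (θ - ι x')) {N : ℝ}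
    (hN : ∀ v ≠ 0, ∀ Z ⊆ Y, (∀ y ∈ Z, ∃ x, g ^ y = v * (θ - ι x)) ∨
      (∀ y ∈ Z, ∃ x, g ^ y * (θ - ι x) = v) → #Z ≤ N) :
    #Y ≤ N + (4 * (Fintype.card K).sqrt + 7 : ℕ) := by
  classical
  obtain ⟨u1, u2, v, w, -, -, n3, n4, H⟩ := h.cover {z | ∃ y ∈ Y, z = g ^ y}
    (by rintro z ⟨y, -, rfl⟩; exact zpow_ne_zero _ g0) (by
      rintro z ⟨y, hy, rfl⟩ z' ⟨y', hy', rfl⟩
      exact rat y hy y' hy')
  by_cases hv : ∀ y ∈ Y, ∃ x, g ^ y = v * (θ - ι x)
  · exact (hN v n3 Y subset_rfl (.inl hv)).trans (le_add_of_nonneg_right (Nat.cast_nonneg _))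
  push Not at hv
  obtain ⟨y, hy, hv⟩ := hv
  let D : L → Finset ℤ := fun u => {y ∈ Y | ∃ k, g ^ y = u * ι k}
  have hD : ∀ u, #(D u) ≤ 2 * (Fintype.card K).sqrt + 2 := fun u => by
    refine h2.card_le (S := image₂ (· + ·) (D u) (D u)) ((filter_subset _ _).trans hY)
      (fun a ha b hb => mem_image₂_of_mem ha hb) ?_
    rw [← card_image_of_injOn (f := fun s : ℤ => g ^ s) fun s hs s' hs' e => by
      obtain ⟨a, ha, b, hb, rfl⟩ := mem_image₂.1 hs
      obtain ⟨a', ha', b', hb', rfl⟩ := mem_image₂.1 hs'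
      exact loc _ (mem_filter.1 ha).1 _ (mem_filter.1 ha').1 _ (mem_filter.1 hb).1 _
        (mem_filter.1 hb').1 (by simpa only [zpow_add₀ g0] using e)]
    refine (card_le_card (t := univ.image fun k => u * u * ι k) fun z hz => ?_).trans card_image_le
    obtain ⟨s, hs, rfl⟩ := mem_image.1 hz
    obtain ⟨a, ha, b, hb, rfl⟩ := mem_image₂.1 hs
    obtain ⟨k, hk⟩ := (mem_filter.1 ha).2
    obtain ⟨l, hl⟩ := (mem_filter.1 hb).2
    exact mem_image.2 ⟨k * l, mem_univ _, by rw [zpow_add₀ g0, hk, hl, map_mul]; ring⟩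
  have uq : ∀ a ∈ Y, ∀ b ∈ Y, g ^ a = g ^ b → a = b := fun a ha b hb e =>
    add_right_cancel (loc a ha b hb a ha a ha (by rw [e]))
  let P : Finset ℤ := {p ∈ Y | ∃ x, g ^ p = v * (θ - ι x)}
  have hP : #P ≤ 3 := by
    obtain ⟨a, ha⟩ : ∃ a, ∀ p ∈ P, (∃ k, g ^ y = g ^ p * ι k) → p = a := by
      by_cases e : ∃ a ∈ P, ∃ k, g ^ y = g ^ a * ι k
      · obtain ⟨a, a1, k, a2⟩ := e
        refine ⟨a, fun p p1 ⟨l, p2⟩ => ?_⟩
        obtain ⟨a3, x, a4⟩ := mem_filter.1 a1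
        obtain ⟨p3, z, p4⟩ := mem_filter.1 p1
        obtain ⟨e1, e2, -⟩ := h.ind (z * l - x * k) (k - l) 0 (mul_left_cancel₀ n3 (by
          simp only [map_sub, map_mul, map_zero]
          linear_combination p2 - a2 + ι l * p4 - ι k * a4))
        have k0 : k ≠ 0 := fun e => zpow_ne_zero y g0 (by rw [a2, e, map_zero, mul_zero])
        have : z = x := mul_right_cancel₀ k0 (by linear_combination e1 + z * e2)
        exact uq _ p3 _ a3 (by rw [p4, a4, this])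
      · exact ⟨0, fun p p1 p2 => absurd ⟨p, p1, p2⟩ e⟩
    by_cases e : ∃ b ∈ P, ∃ c d, g ^ y * (θ - ι c) = g ^ b * (θ - ι d)
    · obtain ⟨b, b1, c, d, b2⟩ := e
      obtain ⟨b3, z, b4⟩ := mem_filter.1 b1
      have key : ∀ p ∈ P, p ≠ a → p ≠ b → g ^ p = v * (θ - ι d) := fun p p1 p2 p3 => by
        obtain ⟨p4, x, p5⟩ := mem_filter.1 p1
        obtain ⟨f, f', p6⟩ := (rat y hy p p4).resolve_left fun k => p2 (ha p p1 k)
        rcases h.tri (zpow_ne_zero p g0) (zpow_ne_zero b g0) (zpow_ne_zero y g0) (a := x) (b := z)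
          (fun k => p3 (uq _ p4 _ b3 (by rw [p5, b4, k]))) (by rw [p5, b4]; ring) b2.symm p6
          with rfl | rfl
        · exact p5
        · exact absurd (mul_right_cancel₀ (h.ne x) (by rw [p6, p5]; ring)) (hv f')
      exact card_le_three a b fun p p1 p' p1' k1 k2 k3 k4 => uq _ (mem_filter.1 p1).1 _
        (mem_filter.1 p1').1 ((key p p1 k1 k2).trans (key p' p1' k3 k4).symm)
    · exact card_le_three a a fun p p1 _ _ k _ _ _ => absurd (ha p p1
        ((rat y hy p (mem_filter.1 p1).1).resolve_right fun k => e ⟨p, p1, k⟩)) k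
  let Q : Finset ℤ := {p ∈ Y | ∃ x, g ^ p * (θ - ι x) = w}
  have hQ := hN w n4 Q (filter_subset _ _) (.inr fun _ hp => (mem_filter.1 hp).2)
  have c1 : #Y ≤ #(D u1 ∪ (D u2 ∪ (P ∪ Q))) := card_le_card fun p hp => by
    simpa only [D, P, Q, mem_union, mem_filter, hp, true_and] using H _ ⟨p, hp, rfl⟩
  have c2 := card_union_le (D u1) (D u2 ∪ (P ∪ Q))
  have c3 := card_union_le (D u2) (P ∪ Q)
  have c4 := card_union_le P Q
  have c5 := hD u1
  have c6 := hD u2
  exact le_trans (by exact_mod_cast (by omega)) (add_le_add_left hQ _)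

theorem main_int [Algebra K L] (hc : ringChar K ≠ 2) (h3 : Module.finrank K L = 3) {θ g lam : L}
    (hθ : θ ∉ Set.range (algebraMap K L)) {M : ℕ} (hM : Fintype.card K ^ 3 = M + 2)
    (hg : orderOf g = M + 1) {A B J : Finset ℤ} (hA : W3 A) (hB : B ⊆ A) {u : ℤ}
    (hu : ∀ b ∈ B, u ≤ b ∧ b ≤ u + M ∧ ∃ x, g ^ b = lam * (θ - algebraMap K L x))
    (hq : 994 / 1000 * (Fintype.card K : ℝ) + 27 * √(Fintype.card K) ≤ #B)
    {R : ℕ} (hR : 40000 ≤ R) (hJ : ∀ a ∈ A, R * a / (M + 1) ∈ J) :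
    #A ≤ Fintype.card K + 6 * #J ^ 2 + 4 * #J * ((Fintype.card K).sqrt + 1) ∧
      ∀ η : ℝ, 0 < η → η ≤ 1 → ∀ k : ℕ, Real.cos (Real.pi * (η / 8)) ^ (2 * k) ≤ η / 8 * mn k →
        80 * (2 * k + 1) ≤ η * √(Fintype.card K) → (#A : ℝ) ≤
          #J * ((1 / R + η) * Fintype.card K + (4 * (Fintype.card K).sqrt + 7 : ℕ)) := by
  classical
  set ι := algebraMap K L with hι
  have h := bas θ h3 hθ
  have : FiniteDimensional K L := Module.finite_of_finrank_pos (by omega)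
  have : Finite L := Module.finite_of_finite K
  have := Fintype.ofFinite L
  have cL : Fintype.card L = M + 2 := by
    rw [← hM, ← h3, Module.card_eq_pow_finrank (K := K)]
  have hL : ∀ y : L, y ≠ 0 → y ^ (M + 1) = 1 := fun y hy => by
    simpa [cL] using FiniteField.pow_card_sub_one_eq_one y hy
  have g0 : g ≠ 0 := by
    rintro rfl
    have := pow_orderOf_eq_one (0 : L)
    rw [hg, zero_pow (by omega)] at this
    exact zero_ne_one this
  have q1 : (1 : ℝ) ≤ √(Fintype.card K) := Real.one_le_sqrt.2 (Nat.one_le_cast.2 Fintype.card_pos)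
  have q2 : (1 : ℝ) ≤ Fintype.card K := Nat.one_le_cast.2 Fintype.card_pos
  have B4 : 4 < #B := by exact_mod_cast (by linarith : (4 : ℝ) < #B)
  have q3 : 3 ≤ Fintype.card K := by
    have := FiniteField.odd_card_of_char_ne_two hc
    have := Fintype.one_lt_card (α := K)
    omega
  have M12 : 12 ≤ M := by
    have := Nat.pow_le_pow_left q3 3
    omega
  obtain ⟨b0, hb0⟩ := card_pos.1 (show 0 < #B by omega)
  have l0 : lam ≠ 0 := fun e => by
    obtain ⟨x, hx⟩ := (hu b0 hb0).2.2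
    exact zpow_ne_zero _ g0 (by rw [hx, e, zero_mul])
  have : NeZero (M + 1) := ⟨by omega⟩
  have prim : IsPrimitiveRoot g (M + 1) := hg ▸ IsPrimitiveRoot.orderOf g
  choose a a1 a2 using fun x : K => prim.eq_pow_of_pow_eq_one (hL (g ^ (-u) * lam * (θ - ι x))
    (mul_ne_zero (mul_ne_zero (zpow_ne_zero _ g0) l0) (h.ne x)))
  have small : ∀ m n : ℤ, g ^ m = g ^ n → |m - n| < M + 1 → m = n := fun m n e k => by
    have := zpow_inj g0 e
    rw [hg] at this
    exact sub_eq_zero.1 (Int.eq_zero_of_abs_lt_dvd this (by exact_mod_cast k))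
  have ga : ∀ x, g ^ (u + a x) = lam * (θ - ι x) := fun x => by
    rw [zpow_add₀ g0, zpow_natCast, a2, zpow_neg]
    field_simp
  have inj : ∀ x y, u + a x = u + a y → x = y := fun x y e =>
    ι.injective (sub_right_injective (mul_left_cancel₀ l0 (by rw [← ga, e, ga])))
  set X : Finset K := {x | u + a x ∈ A} with hX
  have cX : #B ≤ #X := by
    refine card_le_card_of_surjOn (fun x => u + a x) fun b hb => ?_
    obtain ⟨k1, k2, x, hx⟩ := hu b hb
    have e : u + a x = b := small _ _ (by rw [ga, hx]) (by have := a1 x; rw [abs_lt]; omega)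
    exact ⟨x, mem_coe.2 (mem_filter.2 ⟨mem_univ _, e ▸ hB hb⟩), e⟩
  have near : ∀ y y' : ℤ, R * y / (M + 1) = R * y' / (M + 1) → R * |y - y'| ≤ M + 1 :=
    fun y y' e => by
    have p : (0 : ℤ) < M + 1 := by omega
    have k1 := Int.mul_ediv_add_emod (R * y) (M + 1)
    have k2 := Int.mul_ediv_add_emod (R * y') (M + 1)
    have k3 := Int.emod_nonneg (R * y) p.ne'
    have k4 := Int.emod_nonneg (R * y') p.ne'
    have k5 := Int.emod_lt_of_pos (R * y) p
    have k6 := Int.emod_lt_of_pos (R * y') p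
    rw [e] at k1
    rw [← Nat.abs_cast (R := ℤ) R, ← abs_mul, mul_sub, abs_le]
    constructor <;> linarith
  have near' : ∀ y y' : ℤ, R * y / (M + 1) = R * y' / (M + 1) → 40000 * |y - y'| ≤ M + 1 :=
    fun y y' e => (mul_le_mul_of_nonneg_right (by exact_mod_cast hR) (abs_nonneg _)).trans
      (near y y' e)
  have loc : ∀ y y' z z' : ℤ, R * y / (M + 1) = R * y' / (M + 1) →
      R * z / (M + 1) = R * z' / (M + 1) → g ^ y * g ^ z = g ^ y' * g ^ z' → y + z = y' + z' :=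
    fun y y' z z' e1 e2 e => small _ _ (by rwa [zpow_add₀ g0, zpow_add₀ g0]) (by
      have k1 := near' _ _ e1
      have k2 := near' _ _ e2
      have k3 := abs_add_le (y - y') (z - z')
      rw [show y + z - (y' + z') = y - y' + (z - z') by ring]
      omega)
  obtain ⟨Ψ, hΨ⟩ := exists_pk hc h3 (by omega) hg
  have h2 := hA.two (B4.trans_le (card_le_card hB))
  suffices rat : ∀ y ∈ A, ∀ y' ∈ A, R * y / (M + 1) = R * y' / (M + 1) →
      (∃ k, g ^ y = g ^ y' * ι k) ∨ ∃ x x', g ^ y * (θ - ι x) = g ^ y' * (θ - ι x') by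
    refine ⟨h.count g0 h2 (bl := fun y => R * y / (M + 1)) hJ loc rat, fun η h0 h1 k hk hk' => ?_⟩
    rw [card_eq_sum_card_fiberwise (f := fun y => R * y / (M + 1 : ℤ)) hJ, Nat.cast_sum,
      ← nsmul_eq_mul]
    refine sum_le_card_nsmul _ _ _ fun j _ => ?_
    have same : ∀ y ∈ ({y ∈ A | R * y / (M + 1 : ℤ) = j} : Finset ℤ),
        ∀ y' ∈ ({y ∈ A | R * y / (M + 1 : ℤ) = j} : Finset ℤ),
        R * y / (M + 1 : ℤ) = R * y' / (M + 1) := fun y hy y' hy' =>
      (mem_filter.1 hy).2.trans (mem_filter.1 hy').2.symm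
    have qM : Fintype.card K ≤ M := by
      have := Nat.pow_le_pow_left q3 2
      rw [pow_succ] at hM
      nlinarith
    have uq : ∀ y y' : ℤ, R * y / (M + 1) = R * y' / (M + 1) → g ^ y = g ^ y' → y = y' :=
      fun y y' a b => add_right_cancel (loc y y' 0 0 a rfl (by rw [b]))
    refine h.block g0 h2 (filter_subset _ _) (fun a ha a' ha' b hb b' hb' =>
      loc _ _ _ _ (same a ha a' ha') (same b hb b' hb')) (fun y hy y' hy' =>
      rat y (mem_filter.1 hy).1 y' (mem_filter.1 hy').1 (same y hy y' hy')) fun v v0 Z hZ e => ?_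
    rcases e with e | e
    · exact hΨ.short2 hL g0 hθ v0 h0 h1 hk hk' qM (by omega)
        (fun y hy y' hy' => near _ _ (same y (hZ hy) y' (hZ hy')))
        (fun y hy y' hy' => uq _ _ (same y (hZ hy) y' (hZ hy'))) e
    rw [← card_image_of_injective Z neg_injective]
    refine hΨ.short2 hL g0 hθ (inv_ne_zero v0) h0 h1 hk hk' qM (by omega) ?_ ?_ ?_ <;>
      simp only [forall_mem_image]
    · intro y hy y' hy'
      rw [neg_sub_neg]
      exact near _ _ (same y' (hZ hy') y (hZ hy))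
    · intro y hy y' hy' k
      rw [zpow_neg, zpow_neg, inv_inj] at k
      rw [uq _ _ (same y (hZ hy) y' (hZ hy')) k]
    · intro y hy
      obtain ⟨x, hx⟩ := e y hy
      refine ⟨x, ?_⟩
      rw [← hx, mul_inv, inv_mul_cancel_right₀ (h.ne x), zpow_neg]
  intro y hy y' hy' e
  by_contra! hn
  have one : ∀ s : ℤ, #{x : K | u + a x = s} ≤ 1 := fun s =>
    card_le_one.2 fun x hx y hy => inj x y ((mem_filter.1 hx).2.trans (mem_filter.1 hy).2.symm)
  have c1 := card_union_le Xᶜ (({x : K | u + a x = y} : Finset K) ∪ ({x : K | u + a x = y'} : Finset K))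
  have c2 := card_union_le ({x : K | u + a x = y} : Finset K) {x : K | u + a x = y'}
  have c3 := card_add_card_compl X
  have c4 := one y
  have c5 := one y'
  have gy := zpow_ne_zero y' g0
  obtain ⟨x1, x2, x3, x4, n1, n2, n3, n4, d1, d2, e'⟩ := hΨ.key hg hL M12 hc h3 hθ (a := a)
    (fun x => ⟨Nat.le_of_lt_succ (a1 x), a2 x⟩) g0
    (Xᶜ ∪ (({x : K | u + a x = y} : Finset K) ∪ ({x : K | u + a x = y'} : Finset K))) (by
      have : (#(Xᶜ ∪ (({x : K | u + a x = y} : Finset K) ∪ ({x : K | u + a x = y'} : Finset K))) +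
        #B : ℝ) ≤ Fintype.card K + 2 := by exact_mod_cast (by omega)
      linarith) (near' _ _ e) (by
      rintro ⟨k, hk⟩
      exact hn.1 k (by rw [hk, zpow_sub₀ g0, mul_div_cancel₀ _ gy])) fun x x' e => hn.2 x x' (by
      rw [← e, zpow_sub₀ g0, ← mul_assoc, mul_div_cancel₀ _ gy])
  simp only [hX, mem_union, mem_compl, mem_filter, mem_univ, true_and, not_or, not_not]
    at n1 n2 n3 n4
  rcases hA.three hy n1.1 n2.1 hy' n3.1 n4.1 (Ne.symm n1.2.1) (Ne.symm n2.2.1)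
    (fun k => d1 (inj _ _ k)) (Ne.symm n3.2.2) (Ne.symm n4.2.2) (fun k => d2 (inj _ _ k))
    (by omega) with k | k | k
  · exact hn.1 1 (by rw [map_one, mul_one, k])
  · exact n3.2.1 k.symm
  · exact n4.2.1 k.symm

theorem blocks (R n M : ℕ) : ∃ J : Finset ℤ, (#J : ℝ) ≤ R * (n / (M + 1)) + 1 ∧
    ∀ a ∈ Icc (1 : ℤ) n, R * a / (M + 1) ∈ J := by
  refine ⟨Icc 0 (R * n / (M + 1) : ℕ), ?_, fun a ha => ?_⟩
  · rw [Int.card_Icc, sub_zero, Int.toNat_natCast_add_one, Nat.cast_succ, ← mul_div_assoc]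
    exact add_le_add_left (Nat.cast_div_le.trans_eq (by push_cast; rfl)) _
  · obtain ⟨a1, a2⟩ := mem_Icc.1 ha
    exact mem_Icc.2 ⟨Int.ediv_nonneg (by positivity) (by positivity), by
      push_cast
      exact Int.ediv_le_ediv (by positivity) (by gcongr)⟩

theorem big {ε t s n m a : ℝ} (t1 : 30 ≤ t) (t2 : 40000000000 ≤ ε * t) (s0 : 0 ≤ s)
    (hs : s ^ 3 = n) (hm : t ^ 18 = m + 1) (h1 : t ^ 18 ≤ n) (h2 : n ^ 2 ≤ t ^ 42)
    (ha : a ≤ t ^ 6 + 6 * (40000 * (n / m) + 1) ^ 2 + 4 * (40000 * (n / m) + 1) * (t ^ 3 + 1)) :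
    a ≤ (1 + ε) * s := by
  have t0 : 0 < t := by linarith
  have t3 : 1 ≤ t ^ 3 := one_le_pow₀ (by linarith)
  have t4 : 2 ≤ t ^ 18 := le_trans (by linarith) (le_self_pow₀ (by linarith) (by norm_num))
  have a1 : t ^ 6 ≤ s := le_of_pow_le_pow_left₀ three_ne_zero s0 (by rw [hs, ← pow_mul]; exact h1)
  have a2 : s ≤ t ^ 7 := le_of_pow_le_pow_left₀ (n := 6) (by norm_num) (by positivity) (by
    rw [← pow_mul, show 6 = 3 * 2 from rfl, pow_mul, hs]
    exact h2)
  obtain ⟨c, hc⟩ : ∃ c, c = n / t ^ 18 := ⟨_, rfl⟩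
  have c1 : 1 ≤ c := hc ▸ (one_le_div (by positivity)).2 h1
  have c2 : n / m ≤ 2 * c := by
    rw [hc, ← mul_div_assoc, div_le_div_iff₀ (by linarith) (by positivity)]
    nlinarith
  have c0 : 0 ≤ n / m := div_nonneg (by linarith) (by linarith)
  have c3 : c ^ 2 * t ≤ s := by
    rw [hc, div_pow, div_mul_eq_mul_div, div_le_iff₀ (by positivity), ← hs]
    calc _ = s * t * s ^ 5 := by ring
      _ ≤ s * t * (t ^ 7) ^ 5 := by gcongr
      _ = _ := by ring
  have c4 : c * t ^ 3 * t ≤ s := by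
    rw [hc, mul_assoc, div_mul_eq_mul_div, div_le_iff₀ (by positivity), ← hs]
    calc _ = s * t ^ 4 * s ^ 2 := by ring
      _ ≤ s * t ^ 4 * (t ^ 7) ^ 2 := by gcongr
      _ = _ := by ring
  have c5 : a ≤ s + (6 * (80001 * c) ^ 2 + 4 * (80001 * c) * (2 * t ^ 3)) := by
    rw [← add_assoc]
    refine ha.trans ?_
    gcongr <;> linarith
  have c6 : (6 * (80001 * c) ^ 2 + 4 * (80001 * c) * (2 * t ^ 3)) * t ≤ ε * s * t := by
    nlinarith [mul_le_mul_of_nonneg_right t2 s0]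
  linarith [le_of_mul_le_mul_right c6 t0]

theorem sml {δ q s n m a r j : ℝ} (d0 : 0 < δ) (d1 : δ ≤ 1 / 10) (r1 : 1 ≤ δ * r) (q0 : 0 < q)
    (m1 : 1 ≤ δ * m) (s0 : 0 ≤ s) (hs : s ^ 3 = n) (hm : q ^ 3 = m + 1) (h1 : n ≤ m)
    (hj : j ≤ r * (n / m) + 1) (ha : a ≤ j * ((1 / r + 2 * (δ / r)) * q))
    (ha' : 995 / 1000 * q ≤ a) : a ≤ (1 + 10 * δ) * s := by
  have r0 : 0 < r := by nlinarith
  have m0 : 0 < m := by nlinarith
  obtain ⟨c, hc⟩ : ∃ c, c = n / m := ⟨_, rfl⟩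
  have c0 : 0 ≤ c := hc ▸ div_nonneg (hs ▸ pow_nonneg s0 3) m0.le
  have c1 : c ≤ 1 := hc ▸ (div_le_one m0).2 h1
  have a1 : a ≤ (c + δ) * (1 + 2 * δ) * q := by
    refine ha.trans ((mul_le_mul_of_nonneg_right hj (by positivity)).trans ?_)
    rw [← hc, ← mul_assoc, show (r * c + 1) * (1 / r + 2 * (δ / r)) = (c + 1 / r) * (1 + 2 * δ) by
      field_simp]
    gcongr
    exact (div_le_iff₀ r0).2 r1
  have c2 : 1 / 2 ≤ c := by nlinarith [le_of_mul_le_mul_right (ha'.trans a1) q0]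
  have c3 : c * q ≤ (1 + δ) * s := le_of_pow_le_pow_left₀ three_ne_zero (by positivity) (by
    have e : c * m = s ^ 3 := by rw [hc, hs, div_mul_cancel₀ _ m0.ne']
    rw [mul_pow, mul_pow, hm, ← e]
    calc c ^ 3 * (m + 1) ≤ c * (m + δ * m) := by
          gcongr
          exact pow_le_of_le_one c0 c1 three_ne_zero
      _ = (1 + δ) * (c * m) := by ring
      _ ≤ _ := by
        gcongr
        exact le_self_pow₀ (by linarith) three_ne_zero)
  calc a ≤ (c + δ * (2 * c)) * (1 + 2 * δ) * q := a1.trans (by gcongr; nlinarith)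
    _ = (1 + 2 * δ) ^ 2 * (c * q) := by ring
    _ ≤ (1 + 2 * δ) ^ 2 * ((1 + δ) * s) := by gcongr
    _ ≤ _ := by
      rw [← mul_assoc]
      exact mul_le_mul_of_nonneg_right (by nlinarith [mul_pos d0 d0]) s0

end Pool.Agent.Lib.MP_a8c702_nt.RG
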