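import Pool.Agent.Lib.MP_a8c702_nt.RI.Key

/-! Collisions without carry. -/

namespace Pool.Agent.Lib.MP_a8c702_nt.RG

open Polynomial Finset

variable {K L : Type} [Field K] [Field L]

theorem Bas.pencil2 {ι : K →+* L} {θ : L} (h : Bas ι θ) (h2 : (2 : K) ≠ 0) {d : L}
    (hd : d ∉ Set.range ι) (hd1 : ∀ x x', d * (θ - ι x) ≠ θ - ι x') :
    ∃ s0 p0 s1 p1 s0' p0' s1' p1' : K, (s1 ≠ 0 ∨ p1 ≠ 0) ∧ (s1' ≠ 0 ∨ p1' ≠ 0) ∧
      d * (θ ^ 2 - ι s0 * θ + ι p0) = θ ^ 2 - ι s0' * θ + ι p0' ∧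
      d * (ι p1 - ι s1 * θ) = ι p1' - ι s1' * θ ∧
      (∀ x, x ^ 2 - s0 * x + p0 = 0 → p1 - s1 * x ≠ 0) ∧
      (∀ x, x ^ 2 - s0' * x + p0' = 0 → p1' - s1' * x ≠ 0) ∧
      Pos (dsc s0 p0 s1 p1) ∧ Pos (dsc s0' p0' s1' p1') ∧
      Pos (dsc s0 p0 s1 p1 * dsc s0' p0' s1' p1') := by
  have hd0 : d ≠ 0 := fun e => hd ⟨0, by simp [e]⟩
  obtain ⟨s0, p0, s1, p1, s0', p0', s1', p1', hn, e0, e1⟩ := h.pencil hd
  have hn' : s1' ≠ 0 ∨ p1' ≠ 0 := by
    by_contra! hn'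
    rw [hn'.1, hn'.2, map_zero, zero_mul, sub_zero, mul_eq_zero] at e1
    have := h.ind p1 (-s1) 0 (by
      simp only [map_neg, map_zero]
      linear_combination e1.resolve_left hd0)
    simp [this.1, neg_eq_zero.1 this.2.1] at hn
  have hb : s1 ≠ 0 ∨ s1' ≠ 0 := by
    by_contra! hb
    obtain ⟨rfl, rfl⟩ := hb
    have hp : p1 ≠ 0 := by simpa using hn
    refine hd ⟨p1' / p1, ?_⟩
    rw [map_div₀, div_eq_iff ((_root_.map_ne_zero ι).2 hp)]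
    simpa using e1.symm
  refine ⟨s0, p0, s1, p1, s0', p0', s1', p1', hn, hn', e0, e1, fun x a b => ?_, fun x a b => ?_, ?_⟩
  · obtain ⟨x', e⟩ := h.tangent hn e0 e1 a b
    exact hd1 _ _ e
  · obtain ⟨x', e⟩ := h.tangent (d := d⁻¹) (s0' := s0) (p0' := p0) (s1' := s1) (p1' := p1) hn'
      (by rw [← e0, inv_mul_cancel_left₀ hd0]) (by rw [← e1, inv_mul_cancel_left₀ hd0]) a b
    exact hd1 x' x (by rw [← e, mul_inv_cancel_left₀ hd0])
  by_cases a : s1 = 0 <;> by_cases b : s1' = 0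
  · simp [a, b] at hb
  · subst a
    obtain ⟨u1, u2⟩ := dsc_one h2 s0 p0 (hn.resolve_left fun e => e rfl)
    obtain ⟨v1, v2, v3⟩ := dsc_two s0' p0' p1' b
    exact ⟨⟨u1, .inl (by rw [u2]; decide)⟩, ⟨v1, .inr v3⟩, mul_ne_zero u1 v1,
      .inl (by rw [natDegree_mul u1 v1, u2, v2]; decide)⟩
  · subst b
    obtain ⟨u1, u2⟩ := dsc_one h2 s0' p0' (hn'.resolve_left fun e => e rfl)
    obtain ⟨v1, v2, v3⟩ := dsc_two s0 p0 p1 a
    exact ⟨⟨v1, .inr v3⟩, ⟨u1, .inl (by rw [u2]; decide)⟩, mul_ne_zero v1 u1,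
      .inl (by rw [natDegree_mul v1 u1, u2, v2]; decide)⟩
  · obtain ⟨u1, u2, u3⟩ := dsc_two s0 p0 p1 a
    obtain ⟨v1, v2, v3⟩ := dsc_two s0' p0' p1' b
    exact ⟨⟨u1, .inr u3⟩, ⟨v1, .inr v3⟩, mul_ne_zero u1 v1,
      .inr (by rw [leadingCoeff_mul]; exact u3.mul v3)⟩

theorem zpow_inj {g : L} (g0 : g ≠ 0) {m n : ℤ} (h : g ^ m = g ^ n) : (orderOf g : ℤ) ∣ m - n := by
  have h1 : (Units.mk0 g g0) ^ (m - n) = 1 := Units.ext (by
    rw [Units.val_zpow_eq_zpow_val, Units.val_mk0, zpow_sub₀ g0, h, div_self (zpow_ne_zero _ g0),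
      Units.val_one])
  rw [← orderOf_dvd_iff_zpow_eq_one, ← orderOf_units, Units.val_mk0] at h1
  exact h1

variable [Fintype K] [DecidableEq K] [Algebra K L] {g : L} {M : ℕ} {Ψ : L → ℂ}

theorem Pk.key (h : Pk (K := K) g (M + 1) Ψ) (hg : orderOf g = M + 1)
    (hL : ∀ y : L, y ≠ 0 → y ^ (M + 1) = 1) (hM : 12 ≤ M) (hc : ringChar K ≠ 2)
    (h3 : Module.finrank K L = 3) {θ lam : L} (hθ : θ ∉ Set.range (algebraMap K L)) {a : K → ℕ}
    (ha : ∀ x, a x ≤ M ∧ g ^ a x = lam * (θ - algebraMap K L x)) (g0 : g ≠ 0) (Y : Finset K)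
    (hY : (#Y : ℝ) + 25 * √(Fintype.card K) ≤ 6 / 1000 * Fintype.card K) {D : ℤ}
    (hD : 40000 * |D| ≤ M + 1) (hd : g ^ D ∉ Set.range (algebraMap K L))
    (hd1 : ∀ x x', g ^ D * (θ - algebraMap K L x) ≠ θ - algebraMap K L x') :
    ∃ x1 x2 x3 x4, x1 ∉ Y ∧ x2 ∉ Y ∧ x3 ∉ Y ∧ x4 ∉ Y ∧ x1 ≠ x2 ∧ x3 ≠ x4 ∧
      (a x1 + a x2 : ℤ) + D = a x3 + a x4 := by
  by_contra! hcon
  set ι := algebraMap K L with hι
  have h2 : (2 : K) ≠ 0 := Ring.two_ne_zero hc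
  have B := bas θ h3 hθ
  have l0 : lam ≠ 0 := fun e => pow_ne_zero _ g0 (by rw [(ha 0).2, e, zero_mul])
  have q1 : (1 : ℝ) ≤ √(Fintype.card K) := Real.one_le_sqrt.2 (Nat.one_le_cast.2 Fintype.card_pos)
  have hl : 6 ≤ (Fintype.card K).sqrt := Nat.le_sqrt.2 (by
    have : (36 : ℝ) ≤ Fintype.card K := by linarith [(Nat.cast_nonneg #Y : (0 : ℝ) ≤ _)]
    exact_mod_cast this)
  obtain ⟨s0, p0, s1, p1, s0', p0', s1', p1', hn, hn', e0, e1, t1, t2, P1, P2, P3⟩ :=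
    B.pencil2 h2 hd hd1
  have w0 : ι p1 - ι s1 * θ ≠ 0 := fun k => by
    obtain ⟨a, b, -⟩ := B.ind p1 (-s1) 0 (by
      simp only [map_neg, map_zero]
      linear_combination k)
    simp [a, neg_eq_zero.1 b] at hn
  set e := -(θ ^ 2 - ι s0 * θ + ι p0) / (ι p1 - ι s1 * θ) with he
  have ee : ∀ t, -lam ^ 2 * (ι p1 - ι s1 * θ) * (e - ι t) =
      lam ^ 2 * (θ ^ 2 - ι s0 * θ + ι p0 + ι t * (ι p1 - ι s1 * θ)) := fun t => by
    rw [he]
    field_simp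
    ring
  have low := h.lower hL hM hc hl (c := -lam ^ 2 * (ι p1 - ι s1 * θ)) (e := e)
    (mul_ne_zero (neg_ne_zero.2 (pow_ne_zero 2 l0)) w0) (by
      rintro ⟨t, ht⟩
      have := ee t
      rw [← ht, sub_self, mul_zero] at this
      exact one_ne_zero (B.ind (p0 + t * p1) (-(s0 + t * s1)) 1 (by
        simp only [map_neg, map_add, map_mul, map_one]
        linear_combination (mul_eq_zero.1 this.symm).resolve_left (pow_ne_zero 2 l0))).2.2)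
    P1 P2 P3 natDegree_quadratic_le natDegree_quadratic_le
  set T : Finset K := {t | quadraticChar K ((dsc s0 p0 s1 p1).eval t) = 1 ∧
    quadraticChar K ((dsc s0' p0' s1' p1').eval t) = 1} with hT
  choose! x1 x2 hx using fun t (ht : t ∈ T) => split h2 (mem_filter.1 ht).2.1
  choose! x3 x4 hy using fun t (ht : t ∈ T) => split h2 (mem_filter.1 ht).2.2
  have u1 := h.upper hL hM h2 h3 hθ l0 hn t1 T x1 x2 hx
  have u2 := h.upper hL hM h2 h3 hθ l0 hn' t2 T x3 x4 hy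
  have b1 := bad_le Y t1
  have b2 := bad_le Y t2
  set Z := (Y.biUnion fun x => {t : K | x ^ 2 - (s0 + s1 * t) * x + (p0 + p1 * t) = 0}) ∪
    Y.biUnion fun x => {t : K | x ^ 2 - (s0' + s1' * t) * x + (p0' + p1' * t) = 0} with hZ
  have b3 : (#Z : ℝ) ≤ 2 * #Y := by
    exact_mod_cast (card_union_le _ _).trans ((add_le_add b1 b2).trans_eq (two_mul _).symm)
  have pt : ∀ t ∈ T, wt (Ψ (-lam ^ 2 * (ι p1 - ι s1 * θ) * (e - ι t))) ≤
      (if t ∈ Z then 1 else 0) + (wt (Ψ (lam * (θ - ι (x1 t)))) * wt (Ψ (lam * (θ - ι (x2 t)))) +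
        wt (Ψ (lam * (θ - ι (x3 t)))) * wt (Ψ (lam * (θ - ι (x4 t)))) + 1 / 500) := fun t ht => by
    obtain ⟨n1, a1, m1⟩ := hx t ht
    obtain ⟨n2, a2, m2⟩ := hy t ht
    have a1' := congrArg ι a1
    have m1' := congrArg ι m1
    have a2' := congrArg ι a2
    have m2' := congrArg ι m2
    simp only [map_add, map_mul] at a1' m1' a2' m2'
    have k1 : -lam ^ 2 * (ι p1 - ι s1 * θ) * (e - ι t) = g ^ (a (x1 t) + a (x2 t)) := by
      rw [ee, pow_add, (ha _).2, (ha _).2]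
      linear_combination lam ^ 2 * θ * a1' - lam ^ 2 * m1'
    rw [k1, ← (ha _).2, ← (ha _).2, ← (ha _).2, ← (ha _).2]
    split_ifs with hz
    · have := wt_le (h.unit hL (pow_ne_zero (a (x1 t) + a (x2 t)) g0))
      have := mul_nonneg (wt_nonneg (Ψ (g ^ a (x1 t)))) (wt_nonneg (Ψ (g ^ a (x2 t))))
      have := mul_nonneg (wt_nonneg (Ψ (g ^ a (x3 t)))) (wt_nonneg (Ψ (g ^ a (x4 t))))
      linarith
    simp only [hZ, mem_union, mem_biUnion, mem_filter, mem_univ, true_and, not_or, not_exists,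
      not_and] at hz
    have k2 := hcon _ _ _ _ (fun y => hz.1 (x1 t) y (by rw [← a1, ← m1]; ring))
      (fun y => hz.1 (x2 t) y (by rw [← a1, ← m1]; ring))
      (fun y => hz.2 (x3 t) y (by rw [← a2, ← m2]; ring))
      (fun y => hz.2 (x4 t) y (by rw [← a2, ← m2]; ring)) n1 n2
    have k3 : g ^ ((a (x1 t) + a (x2 t) : ℤ) + D) = g ^ (a (x3 t) + a (x4 t) : ℤ) := by
      rw [zpow_add₀ g0, zpow_add₀ g0, zpow_add₀ g0, zpow_natCast, zpow_natCast, zpow_natCast,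
        zpow_natCast, (ha _).2, (ha _).2, (ha _).2, (ha _).2]
      linear_combination lam ^ 2 * (e0 + ι t * e1 - g ^ D * θ * a1' + g ^ D * m1' + θ * a2' - m2')
    obtain ⟨n, k4⟩ := zpow_inj g0 k3
    have M0 : (0 : ℝ) < (M + 1 : ℕ) := by positivity
    have bd : ∀ x, (a x : ℝ) / (M + 1 : ℕ) ≤ 1 := fun x =>
      (div_le_one M0).2 (Nat.cast_le.2 ((ha x).1.trans (Nat.le_succ M)))
    simp only [h.wt_pow, zero_add]
    rw [Nat.cast_add (a _), add_div]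
    refine carry (δ := D / (M + 1 : ℕ)) (n := n) (by positivity) (bd _) (by positivity) (bd _)
      (by positivity) (bd _) (by positivity) (bd _) ?_ ?_ ?_
    · rw [abs_div, abs_of_pos M0, div_le_iff₀ M0]
      have : (40000 * |(D : ℝ)| : ℝ) ≤ (M + 1 : ℕ) := by exact_mod_cast hD
      linarith
    · rintro rfl
      exact k2 (by omega)
    · rw [hg] at k4
      have : ((a (x1 t) + a (x2 t) : ℝ) + D) - (a (x3 t) + a (x4 t)) = (M + 1 : ℕ) * n := by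
        exact_mod_cast k4
      field_simp
      linarith
  have s1 := sum_le_sum pt
  rw [sum_add_distrib, sum_add_distrib, sum_add_distrib, sum_boole, sum_const, nsmul_eq_mul] at s1
  have s2 : (#{t ∈ T | t ∈ Z} : ℝ) ≤ #Z :=
    Nat.cast_le.2 (card_le_card fun t ht => (mem_filter.1 ht).2)
  have s3 : (#T : ℝ) ≤ Fintype.card K := Nat.cast_le.2 (card_le_univ T)
  rw [mu_eq] at low u1 u2
  linarith

end Pool.Agent.Lib.MP_a8c702_nt.RG
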