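import Pool.Agent.Lib.MP_a8c702_nt.RI.Ind

/-! Stepanov's bound for the number of `x` with `x ^ q = x` and `f(x) ^ ((q - 1) / N) = a`. -/

namespace Pool.Agent.Lib.MP_a8c702_nt.RG

open Polynomial Finset

variable {F : Type} [Field F]

theorem Kum.step {N h d l J p k : ℕ} [Fact p.Prime] [CharP F p] {f : F[X]} (hf : Kum (N + 1) f)
    (hq : p ^ k = (N + 1) * h + 1) (h0 : f.coeff 0 ≠ 0) (hd : d + f.natDegree ≤ h)
    (hl : l ≤ p ^ k) (hJ : l * (d + l * f.natDegree + J + 1) < (J + 1) * ((N + 1) * (d + 1)))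
    {a : F} (ha : a ≠ 0) (S : Finset F) (hS : ∀ x ∈ S, x ^ p ^ k = x ∧ f.eval x ^ h = a) :
    #S * l ≤ (l + h * N) * f.natDegree + d + p ^ k * J := by
  classical
  have hf0 : f ≠ 0 := by rintro rfl; simp at h0
  have hz := fun r => hf.indep (r := r) hq h0 hd
  have hfr : ∀ x ∈ S, (X - C x) ^ p ^ k = X ^ p ^ k - C x := fun x hx => by
    rw [sub_pow_char_pow, ← C_pow, (hS x hx).1]
  have hS2 := fun x hx => (hS x hx).2
  clear hS hq
  set q := p ^ k
  let V := degreeLT F (d + 1)
  have hV : ∀ u : V, (u : F[X]).natDegree ≤ d := fun u =>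
    natDegree_le_iff_degree_le.2 (Order.le_of_lt_succ (by
      have := mem_degreeLT.1 u.2
      exact_mod_cast this))
  let T : Fin l → (Fin (J + 1) → Fin (N + 1) → V) →ₗ[F] F[X] := fun k =>
    ∑ j : Fin (J + 1), ∑ i : Fin (N + 1), LinearMap.mulRight F (X ^ (j : ℕ)) ∘ₗ
      LinearMap.mulLeft F (C (a ^ (i : ℕ)) * f ^ (h * (N - i))) ∘ₗ hasseDeriv k ∘ₗ
        LinearMap.mulLeft F (f ^ (l + h * i)) ∘ₗ V.subtype ∘ₗ LinearMap.proj i ∘ₗ LinearMap.proj j
  have hT : ∀ k w, T k w = ∑ j : Fin (J + 1), ∑ i : Fin (N + 1), C (a ^ (i : ℕ)) *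
      f ^ (h * (N - i)) * hasseDeriv k (f ^ (l + h * i) * (w j i : F[X])) * X ^ (j : ℕ) :=
    fun k w => by simp [T, mul_assoc]
  let W : Fin l → Submodule F F[X] := fun k =>
    (degreeLT F (d + l * f.natDegree + J + 1)).map (LinearMap.mulLeft F (f ^ (l + h * N - k)))
  have hm : ∀ (m : ℕ) (u : V), (f ^ m * (u : F[X])).natDegree ≤ m * f.natDegree + d :=
    fun m u => natDegree_mul_le.trans (add_le_add natDegree_pow_le (hV u))
  have hi : ∀ i : Fin (N + 1), h * N = h * (N - i) + h * i := fun i => by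
    rw [← mul_add, Nat.sub_add_cancel (Nat.le_of_lt_succ i.2)]
  have hT' : ∀ k w, T k w ∈ W k := fun k w => by
    have hk := k.2
    obtain ⟨v, hv⟩ : f ^ (l + h * N - k) ∣ T k w := by
      rw [hT]
      refine dvd_sum fun j _ => dvd_sum fun i _ => Dvd.dvd.mul_right ?_ _
      rw [show l + h * N - k = h * (N - i) + (l + h * i - k) by have := hi i; omega, pow_add,
        mul_assoc]
      exact (mul_dvd_mul_left _ (pow_dvd_hasse _ _ _ _)).mul_left _
    refine ⟨v, mem_degreeLT.2 ?_, hv.symm⟩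
    rcases eq_or_ne v 0 with rfl | hv0
    · rw [degree_zero]
      exact WithBot.bot_lt_coe _
    have h1 : (T k w).natDegree ≤ (l + h * N) * f.natDegree + d + J := by
      rw [hT]
      refine natDegree_sum_le_of_forall_le _ _ fun j _ =>
        natDegree_sum_le_of_forall_le _ _ fun i _ => natDegree_mul_le.trans ?_
      have h2 := (natDegree_hasseDeriv_le (f ^ (l + h * i) * (w j i : F[X])) k).trans
        (Nat.sub_le _ _)
      have h4 := hm (l + h * i) (w j i)
      have h6 := (natDegree_C_mul_le (a ^ (i : ℕ)) (f ^ (h * (N - i)))).trans natDegree_pow_le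
      have h9 := j.2
      rw [natDegree_X_pow]
      refine add_le_add (natDegree_mul_le.trans ?_) (by omega)
      rw [hi i, add_mul, add_mul]
      rw [add_mul] at h4
      omega
    rw [hv, natDegree_mul (pow_ne_zero _ hf0) hv0, natDegree_pow] at h1
    have h2 : (l + h * N) * f.natDegree ≤ (l + h * N - k) * f.natDegree + l * f.natDegree := by
      rw [← add_mul]
      exact Nat.mul_le_mul_right _ (by omega)
    rw [degree_eq_natDegree hv0, Nat.cast_lt]
    omega
  have hW : ∀ k, Module.finrank F (W k) ≤ d + l * f.natDegree + J + 1 := fun k =>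
    (Submodule.finrank_map_le _ _).trans (by simp [(degreeLTEquiv F _).finrank_eq])
  obtain ⟨w, hw, hw0⟩ := (Submodule.ne_bot_iff _).1 (LinearMap.ker_ne_bot_of_finrank_lt
    (f := LinearMap.pi fun k => (T k).codRestrict _ (hT' k)) (by
      rw [Module.finrank_pi_fintype F (M := fun k => W k)]
      refine (sum_le_card_nsmul _ _ _ fun k _ => hW k).trans_lt ?_
      simp only [V, Module.finrank_pi_fintype, sum_const,
        (degreeLTEquiv F _).finrank_eq, Module.finrank_self,
        card_univ, Fintype.card_fin, smul_eq_mul]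
      linarith))
  have hw1 : ∀ k, T k w = 0 := fun k => congrArg Subtype.val (congrFun (LinearMap.mem_ker.1 hw) k)
  set g : Fin (J + 1) → F[X] := fun j => ∑ i : Fin (N + 1), f ^ (l + h * i) * (w j i : F[X])
    with hg
  set R : F[X] := ∑ j : Fin (J + 1), g j * X ^ (q * j) with hR
  have hR0 : R ≠ 0 := fun h1 => hw0 (funext fun j => funext fun i => by
    have h2 : f ^ l * ∑ j : Fin (J + 1), (∑ i : Fin (N + 1), (w j i : F[X]) * f ^ (h * i)) *
        X ^ (q * j) = 0 := by
      rw [← h1, hR, mul_sum]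
      refine sum_congr rfl fun j _ => ?_
      rw [hg, ← mul_assoc, mul_sum]
      exact congrArg (· * _) (sum_congr rfl fun i _ => by ring)
    have h3 := fun j => hz (fun i => (w j i : F[X])) fun i => hV _
    have h4 := all_zero (fun j => ∑ i : Fin (N + 1), (w j i : F[X]) * f ^ (h * i))
      (fun j hj => by simp [h3 j hj]) ((mul_eq_zero.1 h2).resolve_left (pow_ne_zero _ hf0)) j
    exact Subtype.ext (h3 j (by rw [h4]; exact dvd_zero _) i))
  have hdeg : R.natDegree ≤ (l + h * N) * f.natDegree + d + q * J := by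
    refine natDegree_sum_le_of_forall_le _ _ fun j _ => natDegree_mul_le.trans ?_
    rw [natDegree_X_pow]
    refine add_le_add (natDegree_sum_le_of_forall_le _ _ fun i _ => (hm _ _).trans ?_)
      (Nat.mul_le_mul_left q (Nat.le_of_lt_succ j.2))
    have := hi i
    exact Nat.add_le_add_right (Nat.mul_le_mul_right _ (by omega)) _
  have hmul : ∀ x ∈ S, l ≤ R.rootMultiplicity x := fun x hx => by
    rw [le_rootMultiplicity_iff hR0]
    have h1 : (X - C x) ^ l ∣ ∑ j : Fin (J + 1), x ^ (j : ℕ) • g j := by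
      refine dvd_of_hasse fun k hk => mul_left_cancel₀ (pow_ne_zero N ha) ?_
      have h1 := congrArg (eval x) ((hT ⟨k, hk⟩ w).symm.trans (hw1 _))
      rw [mul_zero, ← eval_zero (x := x), ← h1, map_sum, eval_finsetSum, eval_finsetSum, mul_sum]
      refine sum_congr rfl fun j _ => ?_
      rw [map_smul, hg, map_sum, eval_smul, eval_finsetSum, eval_finsetSum, smul_eq_mul, mul_sum,
        mul_sum]
      refine sum_congr rfl fun i _ => ?_
      simp only [eval_mul, eval_pow, eval_X, eval_C, pow_mul, hS2 x hx]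
      rw [← pow_add, Nat.add_sub_cancel' (Nat.le_of_lt_succ i.2)]
      ring
    have h2 : (X - C x) ^ l ∣ R - ∑ j : Fin (J + 1), x ^ (j : ℕ) • g j := by
      rw [hR, ← sum_sub_distrib]
      refine dvd_sum fun j _ => (pow_dvd_pow _ hl).trans ?_
      rw [hfr x hx, smul_eq_C_mul, mul_comm (C _), ← mul_sub, pow_mul, C_pow]
      exact (sub_dvd_pow_sub_pow _ _ _).mul_left _
    simpa using dvd_add h2 h1
  refine le_trans ?_ ((card_roots' R).trans hdeg)
  rw [← Multiset.toFinset_sum_count_eq, ← smul_eq_mul]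
  rcases Nat.eq_zero_or_pos l with rfl | hl0
  · simp
  refine (card_nsmul_le_sum _ (fun x => R.roots.count x) _ fun x hx => ?_).trans
    (sum_le_sum_of_subset fun x hx => ?_)
  · rw [count_roots]
    exact hmul x hx
  · rw [Multiset.mem_toFinset, ← Multiset.one_le_count_iff_mem, count_roots]
    exact hl0.trans_le (hmul x hx)

/-- the count over the field with `l ^ 2` elements -/
theorem Kum.count {N h u p k : ℕ} [Fact p.Prime] [CharP F p] {f : F[X]} (hf : Kum (N + 1) f)
    (hq : p ^ k = (N + 1) * h + 1) {l : ℕ} (hl : l = (N + 1) * u + 1) (hk : p ^ k = l ^ 2)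
    (hu : (f.natDegree + 4) * ((N + 1) * f.natDegree + 2) ≤ u) {x0 : F} (hx : x0 ^ p ^ k = x0)
    (h0 : f.eval x0 ≠ 0) {a : F} (ha : a ≠ 0) (S : Finset F)
    (hS : ∀ x ∈ S, x ^ p ^ k = x ∧ f.eval x ^ h = a) :
    (N + 1) * #S ≤ l ^ 2 + (N + 1) * (3 * f.natDegree + 3) * l := by
  classical
  have hf' : Kum (N + 1) (taylor x0 f) := fun d h1 h2 c H hc e => hf d h1 h2 c (taylor (-x0) H) hc (by
    have := congrArg (taylor (-x0)) e
    rwa [taylor_mul, taylor_C, taylor_pow, taylor_pow, taylor_taylor, neg_add_cancel,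
      taylor_zero] at this)
  have hh : h = u * (l + 1) := Nat.eq_of_mul_eq_mul_left (Nat.succ_pos N) (by
    have : (N + 1) * h + 1 = (N + 1) * (u * (l + 1)) + 1 := by rw [← hq, hk, hl]; ring
    exact Nat.add_right_cancel this)
  set m := f.natDegree with hm
  have hul : u < l := by nlinarith
  have hum : m + 4 ≤ u := (Nat.le_mul_of_pos_right _ (by omega)).trans hu
  have huh : u ≤ h := hh ▸ Nat.le_mul_of_pos_right _ (by omega)
  obtain ⟨d, hd⟩ : ∃ d, d + m = h := ⟨h - m, by omega⟩
  have h1 := hf'.step (d := d) (l := l) (J := u + m + 2) hq (by rwa [taylor_coeff_zero])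
    (by rw [natDegree_taylor]; omega) (by rw [hk]; nlinarith) (by
      rw [natDegree_taylor, ← hm]
      have e1 : (N + 1) * d + (N + 1) * m + 1 = l ^ 2 := by rw [← mul_add, hd, ← hq, hk]
      have e2 : (u + m + 3) * ((N + 1) * m + 1) ≤ l * u := by
        refine le_trans (Nat.mul_le_mul_right _ (show _ ≤ l * (m + 4) by nlinarith)) ?_
        rw [mul_assoc]
        exact Nat.mul_le_mul_left _ (by nlinarith)
      have e3 : l * d + l * m = l * (u * (l + 1)) := by rw [← mul_add, hd, hh]
      have e4 : (u + m + 3) * ((N + 1) * d + (N + 1) * m + 1) = (u + m + 3) * l ^ 2 := by rw [e1]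
      have e5 : l * u < l * l := Nat.mul_lt_mul_of_pos_left hul (by omega)
      have e6 : l * 3 ≤ l * u := Nat.mul_le_mul_left _ (by omega)
      nlinarith) ha (S.image (· - x0)) (fun y hy => by
      obtain ⟨x, hx', rfl⟩ := mem_image.1 hy
      rw [sub_pow_char_pow, taylor_eval, sub_add_cancel, hx, (hS x hx').1]
      exact ⟨rfl, (hS x hx').2⟩)
  rw [card_image_of_injective _ sub_left_injective, natDegree_taylor, ← hm, hk] at h1
  have e1 : h * N + h + 1 = l ^ 2 := by rw [← hk, hq]; ring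
  have h2 : #S ≤ l * u + (3 * m + 3) * l := Nat.le_of_mul_le_mul_right (c := l) (by
    have e2 : (l + h * N) * m ≤ (l ^ 2 + l ^ 2) * m := Nat.mul_le_mul_right _ (by nlinarith)
    nlinarith) (by omega)
  have h3 : (N + 1) * (l * u) ≤ l ^ 2 := by nlinarith
  nlinarith

end Pool.Agent.Lib.MP_a8c702_nt.RG
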