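import Pool.Agent.Lib.MP_a8c702_nt.RI.Weil
import Pool.Agent.Lib.MP_a8c702_nt.RG.Main

/-! Character sums along lines in a cubic extension of a finite field. -/

namespace Pool.Agent.Lib.MP_a8c702_nt.RG

open Polynomial Finset Pool.Agent.FW

theorem Ch.exists_pow {Ω : Type} [Field Ω] {Q : ℕ} {ω : Ω → ℂ} (h : Ch Q ω) (hQ : 1 < Q) {y : Ω}
    (hy : y ^ Q = y) (h0 : y ≠ 0) {η : ℂ} (hη : ∀ l, y ^ l = 1 → η ^ l = 1) :
    ∃ v, 0 < v ∧ ω y ^ v = η := by
  have h1 : 0 < orderOf y := orderOf_pos_iff.2 (isOfFinOrder_iff_pow_eq_one.2 ⟨Q - 1, by omega,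
    mul_right_cancel₀ h0 (by rw [← pow_succ, Nat.sub_add_cancel hQ.le, hy, one_mul])⟩)
  have : NeZero (orderOf y) := ⟨h1.ne'⟩
  have h2 : IsPrimitiveRoot (ω y) (orderOf y) :=
    ⟨by rw [← h.pow hy, pow_orderOf_eq_one, h.one], fun l hl => orderOf_dvd_of_pow_eq_one
      (h.inj _ (by rw [pow_right_comm, hy]) (by rwa [h.pow hy]))⟩
  obtain ⟨i, -, hi⟩ := h2.eq_pow_of_pow_eq_one (hη _ (pow_orderOf_eq_one y))
  exact ⟨i + orderOf y, by omega, by rw [pow_add, h2.pow_eq_one, mul_one, hi]⟩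

variable {K L : Type} [Field K] [Fintype K] [Field L] [Algebra K L]

omit [Fintype K] in
theorem Bas.aeval_ne {e : L} (h : Bas (algebraMap K L) e) {D : K[X]} (h0 : D ≠ 0)
    (h2 : D.natDegree ≤ 2) : aeval e D ≠ 0 := fun h1 => by
  have h3 := eq_quadratic_of_degree_le_two (degree_le_of_natDegree_le h2)
  rw [h3] at h1
  obtain ⟨a, b, c⟩ := h.ind (D.coeff 0) (D.coeff 1) (D.coeff 2) (by
    simp only [map_add, map_mul, map_pow, aeval_C, aeval_X] at h1
    linear_combination h1)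
  exact h0 (by rw [h3, a, b, c]; simp)

section
variable {Ω : Type} [Field Ω] [Algebra K Ω] [Algebra L Ω] [IsScalarTower K L Ω]

omit [Algebra K Ω] [IsScalarTower K L Ω] in
theorem fixL (h3 : Module.finrank K L = 3) (z : L) :
    algebraMap L Ω z ^ Nat.card K ^ 6 = algebraMap L Ω z := by
  have : FiniteDimensional K L := Module.finite_of_finrank_pos (by omega)
  have : Finite L := Module.finite_of_finite K
  have := Fintype.ofFinite L
  have h1 : z ^ Nat.card K ^ 3 = z := by
    rw [Nat.card_eq_fintype_card, ← h3, ← Module.card_eq_pow_finrank, FiniteField.pow_card]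
  rw [← map_pow, show 6 = 3 * 2 from rfl, pow_mul, fix_pow h1]

theorem fix_root {D : K[X]} (h0 : D ≠ 0) (h2 : D.natDegree ≤ 2) {ρ : Ω} (h : aeval ρ D = 0) :
    ρ ^ Nat.card K ^ 6 = ρ := by
  have hi : IsIntegral K ρ := IsAlgebraic.isIntegral ⟨D, h0, h⟩
  have h1 := (natDegree_le_of_dvd (minpoly.dvd K ρ h) h0).trans h2
  have h3 := minpoly.natDegree_pos hi
  obtain ⟨t, ht⟩ : (minpoly K ρ).natDegree ∣ 6 := by
    interval_cases (minpoly K ρ).natDegree <;> omega
  rw [ht, pow_mul, fix_pow (pow_deg hi)]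

theorem weil4 [IsAlgClosed Ω] (h3 : Module.finrank K L = 3) {ω : Ω → ℂ}
    (hω : Ch (Nat.card K ^ 6) ω) {g e0 e1 : L} (hg : g ≠ 0) (h0 : e0 ∉ Set.range (algebraMap K L))
    (h1 : aeval e0 (minpoly K e1) ≠ 0) {D : K[X]} (hD : aeval e0 D ≠ 0)
    (hr : ∀ ρ : Ω, aeval ρ D = 0 → ρ ^ Nat.card K ^ 6 = ρ) {b0 : ℕ} (b1 v : ℕ)
    (hb : ω (algebraMap L Ω g) ^ b0 ≠ 1) :
    ‖∑ x : K, ω (algebraMap L Ω (e0 - algebraMap K L x)) ^ b0 *
      ω (algebraMap L Ω (e1 - algebraMap K L x)) ^ b1 *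
      ω (algebraMap L Ω (algebraMap K L (D.eval x))) ^ v‖ ≤ (6 + D.natDegree) * √(Nat.card K) := by
  classical
  have : FiniteDimensional K L := Module.finite_of_finrank_pos (by omega)
  have hQ : 1 < Nat.card K ^ 6 := Nat.one_lt_pow (by norm_num) Finite.one_lt_card
  have hD0 : D ≠ 0 := by rintro rfl; simp at hD
  have hc : D.leadingCoeff ≠ 0 := leadingCoeff_ne_zero.2 hD0
  have fx := fixL (Ω := Ω) h3
  set R := (D.aroots Ω).toFinset with hR
  have hRD : ∀ ρ : R, aeval (ρ : Ω) D = 0 := fun ρ =>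
    (mem_aroots.1 (Multiset.mem_toFinset.1 ρ.2)).2
  set c : K := D.leadingCoeff * (-1) ^ (D.aroots Ω).card with hcc
  have e1' : ∀ x : K, algebraMap L Ω (algebraMap K L (D.eval x)) = algebraMap L Ω (algebraMap K L c) *
      ∏ ρ : R, ((ρ : Ω) - algebraMap K Ω x) ^ (D.aroots Ω).count (ρ : Ω) := fun x => by
    rw [← IsScalarTower.algebraMap_apply, ← IsScalarTower.algebraMap_apply,
      prod_coe_sort R fun ρ => (ρ - algebraMap K Ω x) ^ (D.aroots Ω).count ρ,
      ← prod_multiset_map_count, ← aeval_algebraMap_apply_eq_algebraMap_eval,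
      ← eval_map_algebraMap, (IsAlgClosed.splits _).eval_eq_prod_roots, leadingCoeff_map, hcc,
      map_mul, map_pow, map_neg, map_one, mul_assoc,
      ← Multiset.card_map (fun i => i - algebraMap K Ω x), ← Multiset.prod_map_neg,
      Multiset.map_map]
    simp [aroots]
  set f1 := minpoly K e1 * (D * C D.leadingCoeff⁻¹) with hf1
  have m0 := minpoly.monic (Algebra.IsIntegral.isIntegral (R := K) e0)
  have m1 : f1.Monic := (minpoly.monic (Algebra.IsIntegral.isIntegral e1)).mul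
    (monic_mul_leadingCoeff_inv hD0)
  have n1 : aeval e0 f1 ≠ 0 := by
    rw [hf1, map_mul, map_mul, aeval_C]
    exact mul_ne_zero h1 (mul_ne_zero hD ((_root_.map_ne_zero _).2 (inv_ne_zero hc)))
  obtain ⟨a, b, d, hU⟩ := (bas e0 h3 h0).sp ((g - 1) / aeval e0 f1)
  set H := 1 + f1 * (C a + C b * X + C d * X ^ 2) with hH
  have eH : aeval e0 H = g := by
    simp only [hH, map_add, map_mul, map_pow, map_one, aeval_C, aeval_X, ← hU]
    field_simp
    ring
  have eH' : ∀ y : Ω, aeval y f1 = 0 → aeval y H = 1 := fun y hy => by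
    rw [hH, map_add, map_mul, hy, zero_mul, add_zero, map_one]
  let e : Option (Option R) → Ω := fun r => r.elim (algebraMap L Ω e0) fun r =>
    r.elim (algebraMap L Ω e1) fun ρ => ρ
  let n : Option (Option R) → ℕ := fun r => r.elim b0 fun r =>
    r.elim b1 fun ρ => (D.aroots Ω).count (ρ : Ω) * v
  have z1 : aeval (algebraMap L Ω e1) f1 = 0 := by
    rw [hf1, map_mul, aeval_algebraMap_apply, minpoly.aeval, map_zero, zero_mul]
  have z2 : ∀ ρ : R, aeval (ρ : Ω) f1 = 0 := fun ρ => by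
    rw [hf1, map_mul, map_mul, hRD, zero_mul, mul_zero]
  have W := weil (by norm_num) (by decide) hω e n (f := minpoly K e0 * f1) (H := H)
    (by rintro (_ | _ | ρ); exacts [fx _, fx _, hr _ (hRD ρ)]) (m0.mul m1) (by
      rintro (_ | _ | ρ)
      · rw [map_mul]
        exact mul_eq_zero_of_left (by
          rw [show e none = algebraMap L Ω e0 from rfl, aeval_algebraMap_apply, minpoly.aeval,
            map_zero]) _
      · rw [map_mul]
        exact mul_eq_zero_of_right _ z1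
      · rw [map_mul]
        exact mul_eq_zero_of_right _ (z2 ρ))
    (IsCoprime.mul_left ((minpoly.irreducible (Algebra.IsIntegral.isIntegral e0)).coprime_iff_not_dvd.2
      fun h => hg (eH ▸ minpoly.dvd_iff.1 h)) (isCoprime_one_right.add_mul_left_right _)) (by
      simp only [Fintype.prod_option, e, n, Option.elim_none, Option.elim_some, eH' _ z1,
        eH' _ (z2 _), one_pow, prod_const_one, mul_one]
      rwa [aeval_algebraMap_apply, eH, hω.pow (fx _)])
  have fk : ∀ x : K, algebraMap K Ω x ^ Nat.card K ^ 6 = algebraMap K Ω x := fun x => by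
    rw [IsScalarTower.algebraMap_apply K L Ω, fx]
  have fp : ∀ x : K, (∏ ρ : R, ((ρ : Ω) - algebraMap K Ω x) ^ (D.aroots Ω).count (ρ : Ω)) ^
      Nat.card K ^ 6 = ∏ ρ : R, ((ρ : Ω) - algebraMap K Ω x) ^ (D.aroots Ω).count (ρ : Ω) :=
    fun x => by
      rw [← prod_pow]
      refine prod_congr rfl fun ρ _ => ?_
      rw [pow_right_comm, ← fr_apply, map_sub, fr_apply, fr_apply, fk, hr _ (hRD ρ)]
  have e2 : ∀ x : K, ω (algebraMap L Ω (e0 - algebraMap K L x)) ^ b0 *
      ω (algebraMap L Ω (e1 - algebraMap K L x)) ^ b1 *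
      ω (algebraMap L Ω (algebraMap K L (D.eval x))) ^ v =
      ω (algebraMap L Ω (algebraMap K L c)) ^ v * ω (∏ r, (e r - algebraMap K Ω x) ^ n r) :=
    fun x => by
      simp only [Fintype.prod_option, e, n, Option.elim_none, Option.elim_some, pow_mul, prod_pow,
        IsScalarTower.algebraMap_apply K L Ω x, ← map_sub]
      simp only [← IsScalarTower.algebraMap_apply K L Ω x]
      rw [e1', hω.mul _ _ (fx _) (fp x), hω.mul _ _ (by rw [pow_right_comm, fx]) (by
        rw [mul_pow, pow_right_comm, fx, pow_right_comm, fp]), hω.mul _ _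
        (by rw [pow_right_comm, fx]) (by rw [pow_right_comm, fp]), hω.pow (fx _), hω.pow (fx _),
        hω.pow (fp x)]
      ring
  simp only [e2]
  rw [← mul_sum, norm_mul, norm_pow]
  refine (mul_le_of_le_one_left (norm_nonneg _)
    (pow_le_one₀ (norm_nonneg _) (hω.norm_le hQ (fx _)))).trans (W.trans ?_)
  have d0 := minpoly.natDegree_le (A := K) e0
  have d1 := minpoly.natDegree_le (A := K) e1
  have d2 := natDegree_mul_le (p := minpoly K e0) (q := f1)
  have d3 := natDegree_mul_le (p := minpoly K e1) (q := D * C D.leadingCoeff⁻¹)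
  have d4 := natDegree_mul_C_le D D.leadingCoeff⁻¹
  refine mul_le_mul_of_nonneg_right ?_ (by positivity)
  exact_mod_cast (by rw [← hf1] at d3; omega : (minpoly K e0 * f1).natDegree ≤ 6 + D.natDegree)

end

/-- a faithful character of `L` with its sum bounds -/
structure Pk [DecidableEq K] (g : L) (M : ℕ) (Ψ : L → ℂ) : Prop where
  mul : ∀ a b, Ψ (a * b) = Ψ a * Ψ b
  zero : Ψ 0 = 0
  gen : Ψ g = Complex.exp (2 * Real.pi * Complex.I / M)
  sumA : ∀ e ∉ Set.range (algebraMap K L), ∀ i, ¬M ∣ i → ∀ D1 D2 : K[X], D1 ≠ 0 → D2 ≠ 0 →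
    D1.natDegree ≤ 2 → D2.natDegree ≤ 2 → ‖∑ x : K, Ψ (e - algebraMap K L x) ^ i *
      (quadraticChar K ((D1 * D2).eval x) : ℤ)‖ ≤ 10 * √(Fintype.card K)
  sumB : ∀ e ∉ Set.range (algebraMap K L), ∀ e', aeval e (minpoly K e') ≠ 0 → ∀ i, ¬M ∣ i →
    ∀ (j m : ℕ) (D : K[X]), D ≠ 0 → D.natDegree ≤ 1 → ‖∑ x : K, Ψ (e - algebraMap K L x) ^ i *
      Ψ (e' - algebraMap K L x) ^ j * Ψ (algebraMap K L (D.eval x)) ^ m‖ ≤ 7 * √(Fintype.card K)

theorem exists_pk [DecidableEq K] (hc : ringChar K ≠ 2) (h3 : Module.finrank K L = 3) {g : L}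
    {M : ℕ} (hM : 0 < M) (hg : orderOf g = M) : ∃ Ψ, Pk (K := K) g M Ψ := by
  let Ω := AlgebraicClosure L
  obtain ⟨p, _, a, hp, ha⟩ := FiniteField.card' K
  have := Fact.mk hp
  have := charP_of_injective_algebraMap (algebraMap K Ω).injective p
  obtain ⟨ω, hω⟩ := exists_ch (Ω := Ω) (p := p) (Nat.mul_pos a.pos (by norm_num : 0 < 6))
  rw [pow_mul, ← ha, ← Nat.card_eq_fintype_card] at hω
  have hQ : 1 < Nat.card K ^ 6 := Nat.one_lt_pow (by norm_num) Finite.one_lt_card
  have fx := fixL (Ω := Ω) h3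
  have g0 : g ≠ 0 := by
    rintro rfl
    have := pow_orderOf_eq_one (0 : L)
    rw [hg, zero_pow hM.ne'] at this
    exact zero_ne_one this
  have hη := Complex.isPrimitiveRoot_exp M hM.ne'
  obtain ⟨u, u0, hu⟩ := hω.exists_pow hQ (fx g) ((_root_.map_ne_zero _).2 g0)
    (η := Complex.exp (2 * Real.pi * Complex.I / M)) fun l hl => (hη.pow_eq_one_iff_dvd l).2 (by
      rw [← hg, orderOf_dvd_iff_pow_eq_one]
      exact (algebraMap L Ω).injective (by rw [map_pow, hl, map_one]))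
  obtain ⟨γ, hγ⟩ := IsCyclic.exists_monoid_generator (α := Kˣ)
  have gen : ∀ z : K, z ≠ 0 → ∃ n : ℕ, (γ : K) ^ n = z := fun z hz => by
    obtain ⟨n, hn⟩ := hγ (Units.mk0 z hz)
    exact ⟨n, by simpa using congrArg Units.val hn⟩
  have hχ : quadraticChar K γ = -1 := by
    obtain ⟨z, hz⟩ := quadraticChar_exists_neg_one hc
    obtain ⟨n, rfl⟩ := gen z (by rintro rfl; simp at hz)
    refine (quadraticChar_dichotomy γ.ne_zero).resolve_left fun e => ?_
    rw [map_pow, e, one_pow] at hz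
    exact absurd hz (by decide)
  obtain ⟨v, v0, hv⟩ := hω.exists_pow hQ (fx (algebraMap K L γ)) (by simp) (η := -1) fun l hl => by
    have : (γ : K) ^ l = 1 := (algebraMap K L).injective ((algebraMap L Ω).injective (by
      rw [map_pow, map_pow, hl, map_one, map_one]))
    have := congrArg (quadraticChar K) this
    rw [map_pow, hχ, map_one] at this
    exact_mod_cast this
  have hv' : ∀ z : K, ω (algebraMap L Ω (algebraMap K L z)) ^ v = (quadraticChar K z : ℤ) :=
    fun z => by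
      rcases eq_or_ne z 0 with rfl | hz
      · simp [hω.zero, v0.ne']
      · obtain ⟨n, rfl⟩ := gen z hz
        rw [map_pow, map_pow, hω.pow (fx _), pow_right_comm, hv, map_pow, hχ]
        simp
  have nt : ∀ i, ¬M ∣ i → ω (algebraMap L Ω g) ^ (u * i) ≠ 1 := fun i hi e =>
    hi ((hη.pow_eq_one_iff_dvd i).1 (by rwa [pow_mul, hu] at e))
  refine ⟨fun z => ω (algebraMap L Ω z) ^ u, fun a b => ?_, by simp [hω.zero, u0.ne'], hu,
    fun e he i hi D1 D2 n1 n2 d1 d2 => ?_, fun e he e' he' i hi j m D n1 d1 => ?_⟩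
  · rw [map_mul, hω.mul _ _ (fx _) (fx _), mul_pow]
  · have B := bas e h3 he
    have := weil4 h3 hω g0 he (e1 := 0) (by simpa using B.ne 0) (D := D1 * D2)
      (by rw [map_mul]; exact mul_ne_zero (B.aeval_ne n1 d1) (B.aeval_ne n2 d2))
      (fun ρ h => by
        rw [map_mul] at h
        exact (mul_eq_zero.1 h).elim (fix_root n1 d1) (fix_root n2 d2)) 0 v (nt i hi)
    simp only [pow_zero, mul_one, hv', pow_mul, Nat.card_eq_fintype_card] at this
    refine this.trans (mul_le_mul_of_nonneg_right ?_ (by positivity))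
    have := natDegree_mul_le (p := D1) (q := D2)
    exact_mod_cast (by omega : 6 + (D1 * D2).natDegree ≤ 10)
  · have := weil4 h3 hω g0 he he' ((bas e h3 he).aeval_ne n1 (by omega))
      (fun ρ => fix_root n1 (by omega)) (u * j) (u * m) (nt i hi)
    simp only [pow_mul, Nat.card_eq_fintype_card] at this
    refine this.trans (mul_le_mul_of_nonneg_right ?_ (by positivity))
    exact_mod_cast (by omega : 6 + D.natDegree ≤ 7)

end Pool.Agent.Lib.MP_a8c702_nt.RG
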