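import Pool.Agent.Lib.MP_a8c702_nt.RI.Kum

/-! The bound of Weil for products of multiplicative characters of any order. -/

namespace Pool.Agent.Lib.MP_a8c702_nt.RG

open Polynomial Finset Filter Pool.Agent.Lib.MP_639284_nt Pool.Agent.FW
open Pool.Agent.Shared.HasseDavenport (mon mem_mon)

variable {K Ω : Type} [Field K] [Fintype K] [Field Ω] [Algebra K Ω]

theorem map_nm {x : Ω} {s : ℕ} (hs : 0 < s) (hx : x ^ Nat.card K ^ s = x) :
    (nm K s x).map (algebraMap K Ω) = ∏ i ∈ range s, (X - C (x ^ Nat.card K ^ i)) := by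
  obtain ⟨hi, t, ht⟩ := int_of hs hx
  rw [nm, ht, Nat.mul_div_cancel_left _ (minpoly.natDegree_pos hi), Polynomial.map_pow]
  clear ht hx hs
  have h2 : ∀ t, x ^ Nat.card K ^ ((minpoly K x).natDegree * t) = x := fun t => by
    rw [pow_mul, fix_pow (pow_deg hi)]
  induction t with
  | zero => simp
  | succ t ih =>
    rw [mul_add_one, prod_range_add, pow_succ, ih, map_minpoly hi]
    simp only [pow_add, pow_mul x, h2]

theorem fix_aeval {n : ℕ} {e : Ω} (he : e ^ Nat.card K ^ n = e) (P : K[X]) :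
    aeval e P ^ Nat.card K ^ n = aeval e P := by
  rw [← fr_apply, ← aeval_algHom_apply, fr_apply, he]

theorem tower {n : ℕ} {e : Ω} (he : e ^ Nat.card K ^ n = e) (x : Ω) (s : ℕ) :
    ∏ i ∈ range (n * s), (e - x ^ Nat.card K ^ i) =
      (∏ j ∈ range n, (e - x ^ Nat.card K ^ j)) ^ ∑ i ∈ range s, (Nat.card K ^ n) ^ i := by
  induction s with
  | zero => simp
  | succ s ih =>
    rw [mul_add_one, prod_range_add, ih, sum_range_succ, pow_add, ← pow_mul (Nat.card K),
      ← fr_apply, map_prod]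
    refine congrArg _ (prod_congr rfl fun j _ => ?_)
    rw [map_sub, fr_apply, fr_apply, pow_mul (Nat.card K), fix_pow he, ← pow_mul x,
      ← pow_mul (Nat.card K), ← pow_add, add_comm]

theorem weil [IsAlgClosed Ω] {n : ℕ} (hn : 0 < n) (hn2 : Even n) {ω : Ω → ℂ}
    (hω : Ch (Nat.card K ^ n) ω) {ι : Type} [Fintype ι] (e : ι → Ω) (b : ι → ℕ)
    (he : ∀ r, e r ^ Nat.card K ^ n = e r) {f H : K[X]} (hf : f.Monic)
    (hfe : ∀ r, aeval (e r) f = 0) (hH : IsCoprime f H)
    (h1 : ω (∏ r, aeval (e r) H ^ b r) ≠ 1) :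
    ‖∑ x : K, ω (∏ r, (e r - algebraMap K Ω x) ^ b r)‖ ≤ f.natDegree * √(Nat.card K) := by
  classical
  have hq : 1 < Nat.card K := Finite.one_lt_card
  set Nm : K[X] → Ω := fun P => ∏ r, aeval (e r) P ^ b r with hNm
  have n1 : ∀ P, Nm P ^ Nat.card K ^ n = Nm P := fun P => by
    rw [hNm, ← prod_pow]
    exact prod_congr rfl fun r _ => by rw [pow_right_comm, fix_aeval (he r)]
  have n2 : ∀ P Q, ω (Nm (P * Q)) = ω (Nm P) * ω (Nm Q) := fun P Q => by
    rw [← hω.mul _ _ (n1 P) (n1 Q)]
    simp only [hNm, map_mul, mul_pow, prod_mul_distrib]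
  have n3 : ∀ P m, ω (Nm P) ^ m = ω (Nm (P ^ m)) := fun P m => by
    rw [← hω.pow (n1 P)]
    simp only [hNm, map_pow, ← prod_pow, pow_right_comm _ m]
  obtain ⟨d, α, hd, hα⟩ := lpoly Ω (fun P => ω (Nm P)) f.natDegree (by simp [hNm, hω.one])
    (fun P Q _ _ => n2 P Q) fun m hm => by
      let T : K[X] → K[X] := fun P => P + ((H - 1) * P) %ₘ f
      have t1 : ∀ P, f ∣ T P - H * P := fun P => ⟨-(((H - 1) * P) /ₘ f), by
        simp only [T, modByMonic_eq_sub_mul_div]
        ring⟩
      have t2 : ∀ P ∈ mon K m, T P ∈ mon K m := fun P hP => by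
        obtain ⟨p1, p2⟩ := mem_mon.1 hP
        have : (((H - 1) * P) %ₘ f).degree < P.degree := by
          refine (degree_modByMonic_lt _ hf).trans_le ?_
          rw [degree_eq_natDegree hf.ne_zero, degree_eq_natDegree p1.ne_zero, p2, Nat.cast_le]
          exact hm
        exact mem_mon.2 ⟨p1.add_of_left this, by rw [natDegree_add_eq_left_of_degree_lt this, p2]⟩
      have t3 : Function.Injective T := fun P Q h => by
        have e1 : f ∣ P - Q := hH.dvd_of_dvd_mul_left (by
          have := dvd_sub (t1 Q) (t1 P)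
          rwa [h, sub_sub_sub_cancel_left, ← mul_sub] at this)
        have e' : ((H - 1) * P) %ₘ f = ((H - 1) * Q) %ₘ f :=
          modByMonic_eq_of_dvd_sub hf (by rw [← mul_sub]; exact e1.mul_left _)
        simpa [T, e'] using h
      refine eq_zero_of_mul_eq_self_left h1 ?_
      rw [mul_sum]
      refine sum_nbij T t2 t3.injOn (surjOn_of_injOn_of_card_le _ t2 t3.injOn le_rfl) fun P _ => ?_
      refine (n2 H P).symm.trans (congrArg ω (prod_congr rfl fun r _ => ?_))
      obtain ⟨c, hc⟩ := t1 P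
      rw [sub_eq_iff_eq_add.1 hc, map_add, map_mul _ f, hfe, zero_mul, zero_add]
  obtain ⟨p, _, a, hp, ha⟩ := FiniteField.card' K
  have := Fact.mk hp
  have := charP_of_injective_algebraMap (algebraMap K Ω).injective p
  obtain ⟨k, hk, hQ⟩ : ∃ k, 0 < k ∧ Nat.card K ^ n = p ^ k :=
    ⟨a * n, Nat.mul_pos a.pos hn, by rw [Nat.card_eq_fintype_card, ha, pow_mul]⟩
  set F : Polynomial Ω := ∏ r, (∏ j ∈ range n, (X ^ Nat.card K ^ j - C (e r))) ^ b r with hF
  have hFm : F.Monic := monic_prod_of_monic _ _ fun r _ => (monic_prod_of_monic _ _ fun j _ =>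
    monic_X_pow_sub_C _ (by positivity)).pow _
  have key : ∀ s, 0 < s → ∑ x ∈ FQ Ω ((Nat.card K ^ n) ^ s),
      ω (F.eval x ^ ∑ i ∈ range s, (Nat.card K ^ n) ^ i) = -∑ i, (α i ^ n) ^ s := fun s hs => by
    have hs' := Nat.mul_pos hn hs
    simp only [← pow_mul (α _)]
    rw [← hα _ hs', ← finsum_mem_coe_finset, ← pow_mul]
    refine finsum_mem_congr (Set.ext fun x => mem_FQ (Nat.one_lt_pow hs'.ne' hq)) fun x hx => ?_
    rw [n3, ← nm, hF, eval_prod, ← prod_pow]
    refine congrArg ω (prod_congr rfl fun r _ => ?_)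
    rw [← eval_map_algebraMap, map_nm hs' hx, eval_pow, pow_right_comm, eval_prod, eval_prod]
    simp only [eval_sub, eval_pow, eval_X, eval_C]
    rw [tower (he r)]
    congr 2
    have := prod_neg (s := range n) fun j => e r - x ^ Nat.card K ^ j
    rw [card_range, hn2.neg_one_pow, one_mul] at this
    rw [← this]
    simp only [neg_sub]
  have hq0 : (0 : ℝ) < Nat.card K := Nat.cast_pos.2 (by omega)
  have hb : ∀ i, ‖α i‖ ≤ √(Nat.card K) := by
    have := kummer hk (hQ ▸ hω) hFm fun ε hε => by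
      have h0 := ((mem_roots hFm.ne_zero).1 hε).eq_zero
      rw [hF, eval_prod, prod_eq_zero_iff] at h0
      obtain ⟨r, -, h0⟩ := h0
      rw [eval_pow] at h0
      have h2 := eq_zero_of_pow_eq_zero h0
      rw [eval_prod, prod_eq_zero_iff] at h2
      obtain ⟨j, -, h2⟩ := h2
      rw [eval_sub, eval_pow, eval_X, eval_C, sub_eq_zero] at h2
      rw [← hQ]
      refine (fr K Ω j).injective ?_
      change fr K Ω j _ = fr K Ω j _
      rw [fr_apply, fr_apply, pow_right_comm, h2, he]
    rw [← hQ] at this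
    rcases this with ⟨c, hc⟩ | ⟨c, hc⟩
    · intro i
      have h2 := norm_le_of_sums (α := fun i => (α i ^ 2) ^ n) (K := c)
        (r := (Nat.card K ^ n : ℕ)) (by positivity) (by
        filter_upwards [hc, eventually_gt_atTop 0] with s h2 hs
        rw [key _ (by omega), norm_neg] at h2
        rwa [sum_congr rfl fun i _ => (by ring : ((α i ^ 2) ^ n) ^ s = (α i ^ n) ^ (s * 2))]) i
      rw [norm_pow, Nat.cast_pow, pow_le_pow_iff_left₀ (norm_nonneg _) hq0.le hn.ne', norm_pow] at h2
      exact Real.le_sqrt_of_sq_le h2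
    · have h2 := norm_le_of_sums (ι := Option (Fin d)) (K := c) (r := 1)
        (α := fun i => i.elim ((Nat.card K ^ n : ℕ) : ℂ) fun i => α i ^ n) one_pos (by
        filter_upwards [hc, eventually_gt_atTop 0] with s h2 hs
        rw [key _ hs, ← neg_add', norm_neg, add_comm] at h2
        simpa [Fintype.sum_option] using h2) none
      rw [Option.elim_none, Complex.norm_natCast, Nat.cast_le_one] at h2
      exact absurd (Nat.one_lt_pow hn.ne' hq) (by omega)
  have h2 := hα 1 one_pos
  have h3 : {x : Ω | x ^ Nat.card K ^ 1 = x} = (univ.image (algebraMap K Ω) : Finset Ω) := by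
    rw [eq_of_subset_of_card_le (s := univ.image (algebraMap K Ω))
      (t := FQ Ω (Nat.card K ^ 1)) (fun x hx => by
      obtain ⟨c, -, rfl⟩ := mem_image.1 hx
      rw [mem_FQ (by simpa using hq), ← map_pow, pow_one, Nat.card_eq_fintype_card,
        FiniteField.pow_card]) (by
      rw [card_fq K Ω one_pos, card_image_of_injective _ (algebraMap K Ω).injective, pow_one,
        Nat.card_eq_fintype_card, card_univ])]
    exact Set.ext fun x => (mem_FQ (by simpa using hq)).symm
  rw [h3, finsum_mem_coe_finset, sum_image (algebraMap K Ω).injective.injOn] at h2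
  simp only [minpoly.eq_X_sub_C, natDegree_X_sub_C, Nat.div_one, pow_one, hNm, map_sub, aeval_X,
    aeval_C] at h2
  rw [h2, norm_neg]
  refine (norm_sum_le _ _).trans ((sum_le_card_nsmul _ _ _ fun i _ => hb i).trans ?_)
  rw [card_univ, Fintype.card_fin, nsmul_eq_mul]
  exact mul_le_mul_of_nonneg_right (Nat.cast_le.2 hd.le) (by positivity)

end Pool.Agent.Lib.MP_a8c702_nt.RG
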